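import Mathlib
import Pool.Agent.H202.OB.Limit
import Pool.Agent.H202.ST.Alg
import Pool.Agent.H202.ST.Const
import Pool.Graph.R_seed8.Y327.Full
import Pool.Graph.R_seed8.H905R2.OppD
import Pool.Graph.R_pool_sql_team_seeded_47a924f7.T6.H49.CSD.ComplexPer

/-! # MP_77d073_nt: the complexity of the orbit of a system with an algebraic span

Let `n ≥ 3` be prime, let `L_1, …, L_n` be independent linear forms (the rows of the matrix `L`) whose
product `F` satisfies `|F| ≥ ν > 0` at the nonzero integer points. The orbit of `L` consists of the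
systems `a L = (a_1 L_1, …, a_n L_n)` with `a` positive of product one. Two systems `x` and `y` are
`ε`-close if `x = diag(b) (1 + E) y γ` with `1 / K ≤ b i ≤ K`, with `|E i j| ≤ ε` and with `γ` integral
of determinant `±1`. Let `N(ε)` be the smallest number of classes into which the orbit can be divided
such that any two elements of a class are `ε`-close.

We suppose that for some limit `L'` of the systems `a L γ` (`a` positive of product one, `γ` integral
of determinant `±1`), for instance for `L' = L`, and for some nonempty proper set `I` of indices the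
span of the forms `L'_i`, `i ∈ I`, is spanned by vectors with algebraic coordinates. (For instance one
form is algebraic up to a constant.)

Theorem. If there is no irreducible RS-matrix whose invariant planes are the hyperplanes `L_i = 0`,
then `N(ε) / (log (1 / ε)) ^ (n - 1)` tends to infinity for `ε → 0`. If there is one, then `N(ε)` is
bounded, even `N(0)` is finite, and all spans are algebraic.

Without the hypothesis on the span it is only known that `N(ε) ≥ c (log (1 / ε)) ^ (n - 1)` in the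
first case (OrbitComplexity, MP_edeaa2_an). The proof uses the subspace theorem. -/

set_option autoImplicit false

open Filter Topology

namespace Pool.Agent.Results.MP_77d073_nt.AlgebraicSpans

variable {n : ℕ}

/-- the product of the linear forms with the coefficients `L i` at the integer point `p` -/
noncomputable def F (L : Matrix (Fin n) (Fin n) ℝ) (p : Fin n → ℤ) : ℝ :=
  ∏ i : Fin n, ∑ j : Fin n, L i j * (p j : ℝ)

/-- Oppenheim's conclusion: there is an irreducible RS-matrix whose invariant planes are the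
hyperplanes `L i = 0`. -/
def HasMatrix (L : Matrix (Fin n) (Fin n) ℝ) : Prop :=
  ∃ A : Matrix (Fin n) (Fin n) ℤ,
    A.det = 1 ∧
    Irreducible (A.charpoly.map (Int.castRingHom ℚ)) ∧
    (∀ z : ℂ, Polynomial.aeval z A.charpoly = 0 → z.im = 0) ∧
    ∀ i : Fin n, ∀ x : Fin n → ℝ, ∑ j, L i j * x j = 0 →
      ∑ j, L i j * ((A.map (Int.cast : ℤ → ℝ)).mulVec x) j = 0

/-- the limits of the systems `a L γ` with `a` positive of product one and with `γ` integral of
determinant `±1` -/
def Limits (L : Matrix (Fin n) (Fin n) ℝ) : Set (Matrix (Fin n) (Fin n) ℝ) :=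
  {L' | ∃ (a : ℕ → Fin n → ℝ) (γ : ℕ → Matrix (Fin n) (Fin n) ℤ),
    (∀ k i, 0 < a k i) ∧ (∀ k, ∏ i, a k i = 1) ∧ (∀ k, |(γ k).det| = 1) ∧
    Tendsto (fun k => Matrix.diagonal (a k) * L * (γ k).map (Int.cast : ℤ → ℝ)) atTop (𝓝 L')}

/-- the span of the forms `L i`, `i ∈ I`, is spanned by vectors with algebraic coordinates -/
def AlgebraicSpan (L : Matrix (Fin n) (Fin n) ℝ) (I : Finset (Fin n)) : Prop :=
  ∃ T : Set (Fin n → ℝ), (∀ v ∈ T, ∀ j, IsAlgebraic ℚ (v j)) ∧
    Submodule.span ℝ T = Submodule.span ℝ ((fun i => L i) '' (I : Set (Fin n)))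

/-- `x = diag(b) (1 + E) y γ` with `b` between `1 / K` and `K`, with the entries of `E` at most `ε`
and with `γ` integral of determinant `±1` -/
def Close (K ε : ℝ) (x y : Matrix (Fin n) (Fin n) ℝ) : Prop :=
  ∃ (b : Fin n → ℝ) (E : Matrix (Fin n) (Fin n) ℝ) (γ : Matrix (Fin n) (Fin n) ℤ),
    (∀ i, 1 / K ≤ b i ∧ b i ≤ K) ∧ (∀ i j, |E i j| ≤ ε) ∧ |γ.det| = 1 ∧
    x = Matrix.diagonal b * (1 + E) * y * γ.map (Int.cast : ℤ → ℝ)

/-- The orbit of `L` under the positive diagonal matrices of determinant one can be divided into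
`k` classes such that any two elements of a class are close. -/
def Pieces (K ε : ℝ) (L : Matrix (Fin n) (Fin n) ℝ) (k : ℕ) : Prop :=
  ∃ col : (Fin n → ℝ) → Fin k, ∀ a a' : Fin n → ℝ,
    (∀ i, 0 < a i) → ∏ i, a i = 1 → (∀ i, 0 < a' i) → ∏ i, a' i = 1 → col a = col a' →
    Close K ε (Matrix.diagonal a * L) (Matrix.diagonal a' * L)

lemma det_ne {L : Matrix (Fin n) (Fin n) ℝ} (h : L.det ≠ 0) : LinearIndependent ℝ L :=
  Matrix.linearIndependent_rows_of_det_ne_zero h

lemma limits_closure {L L' : Matrix (Fin n) (Fin n) ℝ} (h : L' ∈ Limits L) :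
    L' ∈ closure (H715R2.Orb L) := by
  obtain ⟨a, γ, ha, ha1, hγ, hlim⟩ := h
  exact mem_closure_of_tendsto hlim (Eventually.of_forall fun k =>
    ⟨a k, γ k, ha k, ha1 k, Int.isUnit_iff_abs_eq.2 (hγ k), rfl⟩)

lemma algPts_of_span {L : Matrix (Fin n) (Fin n) ℝ} {I : Finset (Fin n)} (h : AlgebraicSpan L I) :
    Submodule.span ℝ ((fun j => L j) '' (I : Set (Fin n))) ≤
      Submodule.span ℝ (Pool.Agent.H202.ST.algPts
        (Submodule.span ℝ ((fun j => L j) '' (I : Set (Fin n))))) := by
  obtain ⟨T, hT, hT2⟩ := h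
  conv_lhs => rw [← hT2]
  refine Submodule.span_mono fun v hv => ⟨?_, hT v hv⟩
  rw [← hT2]
  exact Submodule.subset_span hv

lemma span_univ {L : Matrix (Fin n) (Fin n) ℝ} (hL : L.det ≠ 0) :
    AlgebraicSpan L Finset.univ := by
  refine ⟨Set.range fun i : Fin n => Pi.single i 1, ?_, ?_⟩
  · rintro _ ⟨i, rfl⟩ j
    simp only
    rcases eq_or_ne j i with rfl | h
    · rw [Pi.single_eq_same]
      exact isAlgebraic_one
    · rw [Pi.single_eq_of_ne h]
      exact isAlgebraic_zero
  · have h1 : Submodule.span ℝ (Set.range fun i : Fin n => (Pi.single i 1 : Fin n → ℝ)) = ⊤ := by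
      have h3 := (Pi.basisFun ℝ (Fin n)).span_eq
      have h4 : (fun i : Fin n => (Pi.single i 1 : Fin n → ℝ)) = ⇑(Pi.basisFun ℝ (Fin n)) := by
        funext i
        rw [Pi.basisFun_apply]
      rw [h4]
      exact h3
    have h2 : LinearIndependent ℝ (fun i => L i) := det_ne hL
    rw [h1, Finset.coe_univ, Set.image_univ]
    exact (h2.span_eq_top_of_card_eq_finrank' (by simp)).symm

/-- a matrix with algebraic entries adapted to the span -/
lemma exists_adapted {L : Matrix (Fin n) (Fin n) ℝ} (hL : L.det ≠ 0) {I : Finset (Fin n)}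
    (h : AlgebraicSpan L I) : ∃ M : Matrix (Fin n) (Fin n) ℝ, M.det ≠ 0 ∧
      (∀ i j, IsAlgebraic ℚ (M i j)) ∧ (∀ i ∈ I, ∀ j, j ∉ I → (M * L⁻¹) i j = 0) ∧
      (∀ i ∈ I, ∀ j, j ∉ I → (L * M⁻¹) i j = 0) := by
  classical
  set α : Fin n → ℝ := fun j => if j ∈ I then 1 else 0 with hα
  have hlev : ∀ i ∈ I, {j | α i ≤ α j} = (I : Set (Fin n)) := by
    intro i hi
    ext j
    rw [Set.mem_ofPred_eq, Finset.mem_coe, hα]
    simp only [hi, if_true]
    by_cases hj : j ∈ I
    · simp [hj]
    · simp only [hj, if_false, iff_false, not_le]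
      norm_num
  have hlev' : ∀ i, i ∉ I → {j | α i ≤ α j} = Set.univ := by
    intro i hi
    ext j
    rw [Set.mem_ofPred_eq, hα]
    simp only [hi, if_false, Set.mem_univ, iff_true]
    split_ifs <;> norm_num
  obtain ⟨M, hM, hMalg, hMT⟩ := Pool.Agent.H202.ST.exists_flag hL (α := α) (fun i => by
    by_cases hi : i ∈ I
    · rw [hlev i hi]
      exact algPts_of_span h
    · rw [hlev' i hi]
      have := algPts_of_span (span_univ hL)
      rwa [Finset.coe_univ] at this)
  have hLu : IsUnit L.det := isUnit_iff_ne_zero.2 hL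
  have hMu : IsUnit M.det := isUnit_iff_ne_zero.2 hM
  have hgen : ∀ A B : Matrix (Fin n) (Fin n) ℝ, IsUnit B.det →
      (∀ i ∈ I, A i ∈ Submodule.span ℝ ((fun j => B j) '' (I : Set (Fin n)))) →
      ∀ i ∈ I, ∀ j, j ∉ I → (A * B⁻¹) i j = 0 := by
    intro A B hB hAB i hi j hj
    have h1 : (A * B⁻¹) i j = (Matrix.vecMul (A i) B⁻¹) j := rfl
    rw [h1]
    have h2 : ∀ v ∈ Submodule.span ℝ ((fun j => B j) '' (I : Set (Fin n))),
        (Matrix.vecMul v B⁻¹) j = 0 := by
      intro v hv
      induction hv using Submodule.span_induction with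
      | mem v hv =>
        obtain ⟨l, hl, rfl⟩ := hv
        have h3 : (Matrix.vecMul (B l) B⁻¹) j = (B * B⁻¹) l j := rfl
        simp only
        rw [h3, Matrix.mul_nonsing_inv _ hB, Matrix.one_apply_ne]
        rintro rfl
        exact hj (Finset.mem_coe.1 hl)
      | zero => rw [Matrix.zero_vecMul]; rfl
      | add v w _ _ hv hw => rw [Matrix.add_vecMul, Pi.add_apply, hv, hw, add_zero]
      | smul c v _ hv => rw [Matrix.smul_vecMul, Pi.smul_apply, hv, smul_zero]
    exact h2 _ (hAB i hi)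
  have hM1 : ∀ i ∈ I, M i ∈ Submodule.span ℝ ((fun j => L j) '' (I : Set (Fin n))) := by
    intro i hi
    have := hMT i
    rwa [hlev i hi] at this
  have hspan : Submodule.span ℝ ((fun i => M i) '' (I : Set (Fin n))) =
      Submodule.span ℝ ((fun i => L i) '' (I : Set (Fin n))) := by
    have hle : Submodule.span ℝ ((fun i => M i) '' (I : Set (Fin n))) ≤
        Submodule.span ℝ ((fun i => L i) '' (I : Set (Fin n))) := by
      rw [Submodule.span_le]
      rintro _ ⟨i, hi, rfl⟩
      exact hM1 i hi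
    have hrank : ∀ N : Matrix (Fin n) (Fin n) ℝ, N.det ≠ 0 →
        Module.finrank ℝ (Submodule.span ℝ ((fun i => N i) '' (I : Set (Fin n)))) = I.card := by
      intro N hN
      have hli : LinearIndependent ℝ (fun i => N i) := det_ne hN
      have hli2 : LinearIndependent ℝ (fun i : I => N i) := hli.comp _ Subtype.val_injective
      have hset : ((fun i => N i) '' (I : Set (Fin n))) = Set.range (fun i : I => N i) := by
        ext v
        constructor
        · rintro ⟨i, hi, rfl⟩
          exact ⟨⟨i, hi⟩, rfl⟩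
        · rintro ⟨i, rfl⟩
          exact ⟨i, i.2, rfl⟩
      rw [hset, finrank_span_eq_card hli2, Fintype.card_coe]
    exact Submodule.eq_of_le_of_finrank_eq hle (by rw [hrank M hM, hrank L hL])
  refine ⟨M, hM, hMalg, hgen M L hLu hM1, hgen L M hMu fun i hi => ?_⟩
  rw [hspan]
  exact Submodule.subset_span ⟨i, hi, rfl⟩

theorem result (n : ℕ) (hn : 3 ≤ n) (hp : n.Prime) (K : ℝ) (hK : 2 ≤ K)
    (L : Matrix (Fin n) (Fin n) ℝ) (hL : L.det ≠ 0) (ν : ℝ) (hν : 0 < ν)
    (hF : ∀ p : Fin n → ℤ, p ≠ 0 → ν ≤ |F L p|) :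
    -- 1. systems with a limit one of whose spans is algebraic
    ((∃ L' ∈ Limits L, ∃ I : Finset (Fin n), I.Nonempty ∧ I ≠ Finset.univ ∧ AlgebraicSpan L' I) →
      (HasMatrix L ↔ ∃ C : ℝ, ∀ ε₀ : ℝ, 0 < ε₀ → ∃ (ε : ℝ) (k : ℕ), 0 < ε ∧ ε < ε₀ ∧
        Pieces K ε L k ∧ (k : ℝ) ≤ C * Real.log (1 / ε) ^ (n - 1))) ∧
    -- 2. systems with Oppenheim's conclusion
    (HasMatrix L → (∀ I : Finset (Fin n), AlgebraicSpan L I) ∧ ∃ k : ℕ, Pieces K 0 L k) := by
  classical
  have hn0 : 0 < n := by omega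
  have hnu : H715R2.HasNu L ν := hF
  have hto : HasMatrix L → H715R2.PropInt L := by
    rintro ⟨A, -, hA2, -, hA4⟩
    exact Pool.Agent.Y327.propInt_of_opp hn hL hν hnu hA2 hA4
  have hfrom : H715R2.PropInt L → HasMatrix L := fun h =>
    Pool.Agent.H905R2.Opp.opp_of_propInt (by omega) (det_ne hL) ⟨ν, hν, hF⟩ h
  have hpieces : HasMatrix L → ∃ k : ℕ, Pieces K 0 L k := by
    intro h
    obtain ⟨k, col, hcol⟩ := T6.H49.CSD.propInt_pieces hn0 hL hν hnu (hto h)
    refine ⟨k, col, fun a a' ha0 ha1 ha0' ha1' hc => ?_⟩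
    obtain ⟨b, E, γ, hb, hE, hγ, heq⟩ := hcol a a' ha0 ha1 ha0' ha1' hc
    refine ⟨b, E, γ, fun i => ⟨?_, (hb i).2.trans hK⟩, hE, Int.isUnit_iff_abs_eq.1 hγ, heq⟩
    exact (one_div_le_one_div_of_le (by norm_num) hK).trans (hb i).1
  refine ⟨?_, fun h => ⟨fun I => ?_, hpieces h⟩⟩
  · rintro ⟨L', hL', I, hI, hI', halg⟩
    constructor
    · intro h
      obtain ⟨k, col, hcol⟩ := hpieces h
      refine ⟨k, fun ε₀ hε₀ => ?_⟩
      set ε : ℝ := min (ε₀ / 2) (Real.exp (-1)) with hε
      have hε1 : 0 < ε := lt_min (by positivity) (Real.exp_pos _)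
      have hε2 : ε < ε₀ := (min_le_left _ _).trans_lt (by linarith)
      have hε3 : ε ≤ Real.exp (-1) := min_le_right _ _
      refine ⟨ε, k, hε1, hε2, ⟨col, fun a a' ha0 ha1 ha0' ha1' hc => ?_⟩, ?_⟩
      · obtain ⟨b, E, γ, hb, hE, hγ, heq⟩ := hcol a a' ha0 ha1 ha0' ha1' hc
        exact ⟨b, E, γ, hb, fun i j => (hE i j).trans hε1.le, hγ, heq⟩
      · have h1 : 1 ≤ Real.log (1 / ε) := by
          rw [Real.le_log_iff_exp_le (by positivity), le_div_iff₀ hε1]
          calc Real.exp 1 * ε ≤ Real.exp 1 * Real.exp (-1) :=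
                mul_le_mul_of_nonneg_left hε3 (Real.exp_pos _).le
            _ = 1 := by rw [← Real.exp_add, add_neg_cancel, Real.exp_zero]
        have h2 : 1 ≤ Real.log (1 / ε) ^ (n - 1) := one_le_pow₀ h1
        have h3 : (0 : ℝ) ≤ k := Nat.cast_nonneg _
        nlinarith
    · rintro ⟨C, hC⟩
      apply hfrom
      have hcl := limits_closure hL'
      have hL'det : L'.det ≠ 0 := by
        rw [← abs_ne_zero, H715R2.abs_det_closure hcl, abs_ne_zero]
        exact hL
      obtain ⟨M, hM, hMalg, hT, hT'⟩ := exists_adapted hL'det halg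
      have hinf : ¬ Pool.Agent.Q64.IF.Inf0 L := by
        intro h0
        obtain ⟨x, hx, hx2⟩ := h0 ν hν
        exact absurd (hF x hx) (not_le.2 hx2)
      refine Pool.Agent.H202.OB.main_near hn hp hL hinf hcl hI hI' hM hMalg hT hT' (K := K)
        (by linarith) (C := |C|) (abs_nonneg _) fun ε₀ hε₀ => ?_
      obtain ⟨ε, k, hε0, hε, hPc, hk⟩ := hC (min ε₀ 1) (lt_min hε₀ one_pos)
      refine ⟨ε, hε0, hε.trans_le (min_le_left _ _), ?_⟩
      have hfew := Pool.Agent.H202.OB.few_of_pc hL hcl (K := K) (ε := ε) (k := k) hPc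
      intro A hA hcard
      refine hfew A hA (lt_of_le_of_lt ?_ hcard)
      refine hk.trans (mul_le_mul_of_nonneg_right (le_abs_self C) ?_)
      have h1 : 0 ≤ Real.log (1 / ε) := by
        apply Real.log_nonneg
        rw [le_div_iff₀ hε0, one_mul]
        exact (hε.trans_le (min_le_right _ _)).le
      positivity
  · -- all spans are algebraic
    have hrows := fun i => Pool.Agent.H202.ST.rows_alg hn hL hν hnu (hto h) i
    choose c hc hc2 using hrows
    refine ⟨(fun i => c i • L i) '' (I : Set (Fin n)), ?_, ?_⟩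
    · rintro _ ⟨i, hi, rfl⟩ j
      exact hc2 i j
    · refine le_antisymm (Submodule.span_le.2 ?_) (Submodule.span_le.2 ?_)
      · rintro _ ⟨i, hi, rfl⟩
        exact Submodule.smul_mem _ _ (Submodule.subset_span ⟨i, hi, rfl⟩)
      · rintro _ ⟨i, hi, rfl⟩
        have h1 : L i = (c i)⁻¹ • (c i • L i) := by
          rw [smul_smul, inv_mul_cancel₀ (hc i), one_smul]
        simp only
        rw [SetLike.mem_coe, h1]
        exact Submodule.smul_mem _ _ (Submodule.subset_span ⟨i, hi, rfl⟩)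

end Pool.Agent.Results.MP_77d073_nt.AlgebraicSpans
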