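import Mathlib
import Pool.Agent.H202.Asymp
import Pool.Graph.R_seed8.Y327.Root
import Pool.Graph.R_seed8.Y327.Full
import Pool.Graph.R_seed8.H905R2.OppD
import Pool.Graph.R_seed8.TH314.CSD.Scales

/-! # MP_77d073_nt: asymptotic partners in minimal sets of systems of linear forms

Let `M` be a minimal closed set of matrices (systems of `d` linear forms) invariant under
`h ↦ diag(a) h γ` (`a` positive of product one, `γ` in `GL_d(ℤ)`), with the product of the rows
bounded away from zero at the nonzero integer points. A point `h` of `M` has an asymptotic partner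
`h'` in `M` if for some positive `a` of product one and some `γ_k` in `GL_d(ℤ)` the matrices
`(diag(a)^k h' γ_k) (diag(a)^k h)⁻¹` tend to a diagonal matrix, while `h' γ_k h⁻¹` is not diagonal for
infinitely many `k`.

1. The points without asymptotic partner contain a dense `G_δ` subset of `M` (any `d`).
2. Let `d ≥ 3`, let the product of the rows of `g` be bounded away from zero at the nonzero integer
   points and let `M` be in the orbit closure of `g`. If Oppenheim's conclusion holds for `g`, then no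
   point of `M` has an asymptotic partner. If it does not hold (`g` is a counterexample to the
   conjecture), then the points with an asymptotic partner are dense in `M`; more precisely, for every
   `k` this holds for the matrices `h` in `M` such that adding a nonzero multiple of some other row to
   row `k` of `h` gives a matrix in `M`. -/

set_option autoImplicit false

open Filter Topology

namespace Pool.Agent.Results.MP_77d073_nt.AsymptoticPartners

variable {d : ℕ}

/-- the product of the linear forms given by the rows of `h`, at an integer point -/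
noncomputable def F (h : Matrix (Fin d) (Fin d) ℝ) (x : Fin d → ℤ) : ℝ :=
  ∏ i : Fin d, ∑ j : Fin d, h i j * (x j : ℝ)

/-- Oppenheim's conclusion: there is an irreducible RS-matrix whose invariant planes are the
hyperplanes on which the linear forms given by the rows of `h` are zero. -/
def HasMatrix (h : Matrix (Fin d) (Fin d) ℝ) : Prop :=
  ∃ A : Matrix (Fin d) (Fin d) ℤ,
    A.det = 1 ∧
    Irreducible (A.charpoly.map (Int.castRingHom ℚ)) ∧
    (∀ z : ℂ, Polynomial.aeval z A.charpoly = 0 → z.im = 0) ∧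
    ∀ i : Fin d, ∀ x : Fin d → ℝ, ∑ j, h i j * x j = 0 →
      ∑ j, h i j * ((A.map (Int.cast : ℤ → ℝ)).mulVec x) j = 0

/-- the product of the linear forms is bounded away from zero at the nonzero integer points -/
def BoundedAway (h : Matrix (Fin d) (Fin d) ℝ) : Prop :=
  ∃ ν : ℝ, 0 < ν ∧ ∀ x : Fin d → ℤ, x ≠ 0 → ν ≤ |F h x|

/-- The closure of the set of matrices `diag(a) g γ` with `a` positive of product one and `γ`
integral of determinant `±1`. -/
def OrbitClosure (g : Matrix (Fin d) (Fin d) ℝ) : Set (Matrix (Fin d) (Fin d) ℝ) :=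
  closure {h | ∃ (a : Fin d → ℝ) (γ : Matrix (Fin d) (Fin d) ℤ), (∀ i, 0 < a i) ∧ ∏ i, a i = 1 ∧
    |γ.det| = 1 ∧ h = Matrix.diagonal a * g * γ.map (Int.cast : ℤ → ℝ)}

/-- The orbit closure of `h` is minimal. -/
def Recurrent (h : Matrix (Fin d) (Fin d) ℝ) : Prop :=
  ∀ h' ∈ OrbitClosure h, h ∈ OrbitClosure h'

/-- `t` times the row `j` is added to the row `i`. -/
def addRow (h : Matrix (Fin d) (Fin d) ℝ) (i j : Fin d) (t : ℝ) : Matrix (Fin d) (Fin d) ℝ :=
  h.updateRow i (h i + t • h j)

/-- The trajectories of `h` and `h'` (modulo `GL_d(ℤ)`) under the powers of `diag(a)` are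
asymptotic up to a diagonal matrix, with the transition matrices `γ k`. -/
def Asymptotic (a : Fin d → ℝ) (γ : ℕ → Matrix (Fin d) (Fin d) ℤ)
    (h h' : Matrix (Fin d) (Fin d) ℝ) : Prop :=
  ∃ D : Fin d → ℝ, Tendsto (fun k : ℕ => (Matrix.diagonal (fun i => a i ^ k) *
      (h' * (γ k).map (Int.cast : ℤ → ℝ))) * (Matrix.diagonal (fun i => a i ^ k) * h)⁻¹)
    atTop (𝓝 (Matrix.diagonal D))

/-- the points of the orbit closure of `h₀` which have an asymptotic partner in it -/
def Partnered (h₀ : Matrix (Fin d) (Fin d) ℝ) : Set (Matrix (Fin d) (Fin d) ℝ) :=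
  {h | h ∈ OrbitClosure h₀ ∧ ∃ h' ∈ OrbitClosure h₀, ∃ (a : Fin d → ℝ)
    (γ : ℕ → Matrix (Fin d) (Fin d) ℤ), (∀ i, 0 < a i) ∧ ∏ i, a i = 1 ∧ (∀ k, |(γ k).det| = 1) ∧
      Asymptotic a γ h h' ∧ ∃ᶠ k in atTop, ¬ (h' * (γ k).map (Int.cast : ℤ → ℝ) * h⁻¹).IsDiag}

lemma closure_eq (g : Matrix (Fin d) (Fin d) ℝ) : OrbitClosure g = closure (H715R2.Orb g) := by
  unfold OrbitClosure H715R2.Orb
  congr 1
  ext h
  constructor
  · rintro ⟨a, γ, ha0, ha1, hγ, hh⟩
    exact ⟨a, γ, ha0, ha1, Int.isUnit_iff_abs_eq.2 hγ, hh⟩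
  · rintro ⟨a, γ, ha0, ha1, hγ, hh⟩
    exact ⟨a, γ, ha0, ha1, Int.isUnit_iff_abs_eq.1 hγ, hh⟩

lemma addRow_eq (h : Matrix (Fin d) (Fin d) ℝ) (i j : Fin d) (t : ℝ) :
    addRow h i j t = Matrix.transvection i j t * h := by
  rw [← Y327.Md_eq_transvection]
  funext a
  by_cases ha : a = i
  · subst ha
    rw [Y327.Md_row, addRow, Matrix.updateRow_self]
    congr 1
    funext b
    simp [Matrix.vecMul, dotProduct]
  · rw [Y327.Md_row_ne _ _ ha, addRow, Matrix.updateRow_ne ha]

lemma recurrent_iff (h : Matrix (Fin d) (Fin d) ℝ) :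
    Recurrent h ↔ TH314.CSD.Recurrent h := by
  unfold Recurrent TH314.CSD.Recurrent
  simp only [closure_eq]

lemma minB_of_recurrent {h : Matrix (Fin d) (Fin d) ℝ} (hh : TH314.CSD.Recurrent h) :
    Y327.MinB id (closure (H715R2.Orb h)) := by
  refine ⟨isClosed_closure, ⟨h, subset_closure (H715R2.mem_orb_self h)⟩,
    Y327.invB_of_inv (TH314.CSD.inv_closure h) id, fun Z hZ hZc hZne hZinv => ?_⟩
  obtain ⟨h', hh'⟩ := hZne
  refine subset_antisymm hZ ?_
  have h1 : closure (H715R2.Orb h') ⊆ Z := by
    refine closure_minimal ?_ hZc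
    rintro _ ⟨a, γ, ha0, ha1, hγ, rfl⟩
    exact hZinv h' hh' a γ ⟨ha0, ha1, fun i j hij => by rw [show i = j from hij]⟩ hγ
  exact (TH314.CSD.orb_closure_trans (hh h' (hZ hh'))).trans h1

lemma isDiag_iff (q : Matrix (Fin d) (Fin d) ℝ) :
    q.IsDiag ↔ ∀ a b, a ≠ b → q a b = 0 :=
  ⟨fun h _ _ hab => h hab, fun h a b hab => h a b hab⟩

/-- adding a multiple of a row gives an asymptotic partner -/
lemma partnered_of_addRow {h₀ h : Matrix (Fin d) (Fin d) ℝ} (hh : h ∈ OrbitClosure h₀)
    (hdet : h.det ≠ 0) {k j : Fin d} (hkj : j ≠ k) {t : ℝ} (ht : t ≠ 0)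
    (hh' : addRow h k j t ∈ OrbitClosure h₀) : h ∈ Partnered h₀ := by
  classical
  have hu : IsUnit h.det := isUnit_iff_ne_zero.2 hdet
  set a : Fin d → ℝ := fun i => if i = k then 1 / 2 else if i = j then 2 else 1 with ha
  have hak : a k = 1 / 2 := by simp [ha]
  have haj : a j = 2 := by simp [ha, hkj]
  have hapos : ∀ i, 0 < a i := by
    intro i
    simp only [ha]
    split_ifs <;> norm_num
  have haprod : ∏ i, a i = 1 := by
    rw [← Finset.mul_prod_erase Finset.univ _ (Finset.mem_univ k), hak,
      ← Finset.mul_prod_erase (Finset.univ.erase k) _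
        (Finset.mem_erase.2 ⟨hkj, Finset.mem_univ j⟩), haj, Finset.prod_eq_one]
    · norm_num
    · intro i hi
      have h1 : i ≠ j := Finset.ne_of_mem_erase hi
      have h2 : i ≠ k := Finset.ne_of_mem_erase (Finset.mem_of_mem_erase hi)
      simp [ha, h1, h2]
  have hq : addRow h k j t * h⁻¹ = Matrix.transvection k j t := by
    rw [addRow_eq, Matrix.mul_assoc, Matrix.mul_nonsing_inv _ hu, Matrix.mul_one]
  refine ⟨hh, addRow h k j t, hh', a, fun _ => 1, hapos, haprod, fun _ => by simp, ⟨fun _ => 1, ?_⟩,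
    ?_⟩
  · have hmap : ((1 : Matrix (Fin d) (Fin d) ℤ).map (Int.cast : ℤ → ℝ)) = 1 :=
      Matrix.map_one _ Int.cast_zero Int.cast_one
    simp only
    rw [hmap]
    have heq : ∀ n : ℕ, (Matrix.diagonal (fun i => a i ^ n) * (addRow h k j t * 1)) *
        (Matrix.diagonal (fun i => a i ^ n) * h)⁻¹ =
        Matrix.transvection k j (t * (1 / 4) ^ n) := by
      intro n
      have hapos' : ∀ i, (0 : ℝ) < a i ^ n := fun i => pow_pos (hapos i) n
      have hinv : (Matrix.diagonal (fun i => a i ^ n))⁻¹ =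
          Matrix.diagonal (fun i => (a i ^ n)⁻¹) := by
        refine Matrix.inv_eq_left_inv ?_
        rw [Matrix.diagonal_mul_diagonal]
        have : (fun i => (a i ^ n)⁻¹ * a i ^ n) = fun _ => (1 : ℝ) :=
          funext fun i => inv_mul_cancel₀ (hapos' i).ne'
        rw [this, Matrix.diagonal_one]
      rw [Matrix.mul_inv_rev, Matrix.mul_one, hinv]
      have h1 : Matrix.diagonal (fun i => a i ^ n) * addRow h k j t *
          (h⁻¹ * Matrix.diagonal (fun i => (a i ^ n)⁻¹)) =
          Matrix.diagonal (fun i => a i ^ n) * Matrix.transvection k j t *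
            Matrix.diagonal (fun i => (a i ^ n)⁻¹) := by
        rw [← hq]
        simp only [Matrix.mul_assoc]
      rw [h1]
      ext x y
      rw [Matrix.mul_diagonal, Matrix.diagonal_mul]
      simp only [Matrix.transvection, Matrix.add_apply, Matrix.one_apply, Matrix.single_apply]
      by_cases hxy : x = y
      · subst hxy
        have h2 : ¬ (k = x ∧ j = x) := fun h0 => hkj (h0.2.trans h0.1.symm)
        rw [if_pos rfl, if_neg h2, if_neg h2]
        have := (hapos' x).ne'
        field_simp
      · rw [if_neg hxy]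
        by_cases h3 : k = x ∧ j = y
        · rw [if_pos h3, if_pos h3, ← h3.1, ← h3.2, hak, haj]
          have h4 : ((1 : ℝ) / 4) ^ n = (1 / 2) ^ n * ((2 : ℝ) ^ n)⁻¹ := by
            rw [← inv_pow, ← mul_pow]
            norm_num
          rw [h4]
          ring
        · rw [if_neg h3, if_neg h3]
          ring
    simp only [heq]
    have h2 : Tendsto (fun n : ℕ => t * (1 / 4 : ℝ) ^ n) atTop (𝓝 0) := by
      have := (tendsto_pow_atTop_nhds_zero_of_lt_one (show (0 : ℝ) ≤ 1 / 4 by norm_num)
        (by norm_num)).const_mul t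
      rwa [mul_zero] at this
    have h3 : Continuous (fun s : ℝ => Matrix.transvection k j s) := by
      unfold Matrix.transvection
      refine continuous_const.add ?_
      refine continuous_matrix fun x y => ?_
      simp only [Matrix.single_apply]
      split_ifs
      · exact continuous_id
      · exact continuous_const
    have h4 := (h3.tendsto 0).comp h2
    rw [Matrix.transvection_zero] at h4
    rw [Matrix.diagonal_one]
    exact h4
  · refine Frequently.of_forall fun n hdiag => ht ?_
    have hmap : ((1 : Matrix (Fin d) (Fin d) ℤ).map (Int.cast : ℤ → ℝ)) = 1 :=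
      Matrix.map_one _ Int.cast_zero Int.cast_one
    rw [hmap, Matrix.mul_one, hq] at hdiag
    have h1 := hdiag hkj.symm
    simp only [Matrix.transvection, Matrix.add_apply, Matrix.one_apply, Matrix.single_apply,
      if_neg hkj.symm, and_self, if_true, zero_add] at h1
    exact h1

/-- proportionality to an integral form and invariant hyperplanes -/
lemma hasMatrix_iff (hd : 3 ≤ d) {g : Matrix (Fin d) (Fin d) ℝ} (hg : g.det ≠ 0)
    (hb : BoundedAway g) : HasMatrix g ↔ H715R2.PropInt g := by
  obtain ⟨ν, hν, hF⟩ := id hb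
  constructor
  · rintro ⟨A, -, hA2, -, hA4⟩
    exact Y327.propInt_of_opp hd hg hν hF hA2 hA4
  · intro h
    exact Pool.Agent.H905R2.Opp.opp_of_propInt (by omega)
      (Matrix.linearIndependent_rows_of_det_ne_zero hg) hb h

theorem result (d : ℕ) :
    -- 1. in a minimal set the points with an asymptotic partner are meagre
    (∀ h₀ : Matrix (Fin d) (Fin d) ℝ, h₀.det ≠ 0 → BoundedAway h₀ → Recurrent h₀ →
      ∃ G ⊆ OrbitClosure h₀, IsGδ G ∧ OrbitClosure h₀ ⊆ closure G ∧ Disjoint G (Partnered h₀)) ∧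
    -- 2. they are absent if Oppenheim's conclusion holds and dense for a counterexample
    (3 ≤ d → ∀ g : Matrix (Fin d) (Fin d) ℝ, g.det ≠ 0 → BoundedAway g →
      ∀ h₀ ∈ OrbitClosure g, Recurrent h₀ →
        (HasMatrix g → Partnered h₀ = ∅) ∧
        (¬ HasMatrix g → ∀ k : Fin d,
          OrbitClosure h₀ ⊆ closure {h | h ∈ OrbitClosure h₀ ∧ ∃ j, j ≠ k ∧ ∃ t : ℝ, t ≠ 0 ∧
            addRow h k j t ∈ OrbitClosure h₀} ∧
          {h | h ∈ OrbitClosure h₀ ∧ ∃ j, j ≠ k ∧ ∃ t : ℝ, t ≠ 0 ∧
            addRow h k j t ∈ OrbitClosure h₀} ⊆ Partnered h₀)) := by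
  classical
  refine ⟨?_, ?_⟩
  · rintro h₀ hdet ⟨ν, hν, hF⟩ hrec
    have hM := minB_of_recurrent ((recurrent_iff h₀).1 hrec)
    have hMdet : ∀ h ∈ closure (H715R2.Orb h₀), |h.det| = |h₀.det| :=
      fun h hh => H715R2.abs_det_closure hh
    have hMnu : ∀ h ∈ closure (H715R2.Orb h₀), H715R2.HasNu h ν :=
      fun h hh => H715R2.hasNu_closure hF hh
    obtain ⟨G, hG1, hG2, hG3, hG4⟩ :=
      Pool.Agent.H202.Twins.generic (abs_pos.2 hdet) hν hMdet hMnu hM
    rw [closure_eq]
    refine ⟨G, hG1, hG2, hG3, ?_⟩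
    rw [Set.disjoint_left]
    rintro h hh ⟨-, h', hh', a, γ, ha0, ha1, hγ, ⟨D, hlim⟩, hfreq⟩
    rw [closure_eq] at hh'
    rcases Nat.eq_zero_or_pos d with hd | hd
    · subst hd
      obtain ⟨k, hk⟩ := hfreq.exists
      exact hk (fun i => i.elim0)
    obtain ⟨γ₀, hγ₀, hev, htri⟩ := Pool.Agent.H202.Twins.asymp_const hd (abs_pos.2 hdet) hν
      (hMdet h (hG1 hh)) (hMdet h' hh') (hMnu h (hG1 hh))
      (⟨ha0, ha1, fun i j hij => by rw [show i = j from hij]⟩ : Y327.BB id a)
      (fun k => Int.isUnit_iff_abs_eq.2 (hγ k)) hlim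
    have h1 := hG4 h hh _ (hM.inv.gam hh' hγ₀) a htri
    obtain ⟨k, hk1, hk2⟩ := (hfreq.and_eventually hev).exists
    refine hk1 ?_
    rw [hk2, isDiag_iff]
    exact h1
  · rintro hd g hg hb h₀ hh₀ hrec
    rw [hasMatrix_iff hd hg hb]
    obtain ⟨ν, hν, hF⟩ := hb
    have hd0 : 0 < d := by omega
    have hMg : closure (H715R2.Orb h₀) ⊆ closure (H715R2.Orb g) := by
      rw [closure_eq] at hh₀
      exact TH314.CSD.orb_closure_trans hh₀
    have hM := minB_of_recurrent ((recurrent_iff h₀).1 hrec)
    refine ⟨fun hP => ?_, fun hint k => ⟨?_, ?_⟩⟩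
    · rw [Set.eq_empty_iff_forall_notMem]
      rintro h ⟨hh, h', hh', a, γ, ha0, ha1, hγ, ⟨D, hlim⟩, hfreq⟩
      rw [closure_eq] at hh hh'
      replace hh := hMg hh
      replace hh' := hMg hh'
      have hhdet : |h.det| = |g.det| := H715R2.abs_det_closure hh
      have hhdet' : |h'.det| = |g.det| := H715R2.abs_det_closure hh'
      have hh0 : h.det ≠ 0 := by rw [← abs_ne_zero, hhdet, abs_ne_zero]; exact hg
      have hh'0 : h'.det ≠ 0 := by rw [← abs_ne_zero, hhdet', abs_ne_zero]; exact hg
      have hnu := H715R2.hasNu_closure hF hh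
      obtain ⟨γ₀, hγ₀, hev, htri⟩ := Pool.Agent.H202.Twins.asymp_const hd0 (abs_pos.2 hg) hν
        hhdet hhdet' hnu
        (⟨ha0, ha1, fun i j hij => by rw [show i = j from hij]⟩ : Y327.BB id a)
        (fun k => Int.isUnit_iff_abs_eq.2 (hγ k)) hlim
      have hmem : h' * H715R2.zR γ₀ ∈ closure (H715R2.Orb g) :=
        (Y327.invB_of_inv (TH314.CSD.inv_closure g) id).gam hh' hγ₀
      set q := h' * H715R2.zR γ₀ * h⁻¹ with hq
      have hqh : q * h = h' * H715R2.zR γ₀ := by
        rw [hq, Matrix.mul_assoc, Matrix.nonsing_inv_mul _ (isUnit_iff_ne_zero.2 hh0),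
          Matrix.mul_one]
      obtain ⟨π, hπ⟩ := Pool.Agent.H202.Twins.exists_perm a
      have hqdet : q.det ≠ 0 := by
        rw [hq, Matrix.det_mul, Matrix.det_mul, H715R2.det_zR]
        refine mul_ne_zero (mul_ne_zero hh'0 ?_) ?_
        · have := H715R2.abs_det_of_isUnit hγ₀
          rw [← abs_ne_zero, this]
          exact one_ne_zero
        · rw [Matrix.det_nonsing_inv, Ring.inverse_eq_inv']
          exact inv_ne_zero hh0
      have h1 := Pool.Agent.H202.Twins.tri_diag_of_propInt hν hh0 hnu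
        (Y327.propInt_closure hd hg hν hF hP hh) hqdet
        (by rw [hqh]; exact H715R2.hasNu_closure hF hmem)
        (by rw [hqh]; exact Y327.propInt_closure hd hg hν hF hP hmem) (π := π)
        (fun x y hxy h0 => hπ x y (htri x y hxy h0))
      obtain ⟨k, hk1, hk2⟩ := (hfreq.and_eventually hev).exists
      refine hk1 ?_
      rw [hk2, isDiag_iff]
      exact h1
    · rw [closure_eq]
      set B : Set (Matrix (Fin d) (Fin d) ℝ) := {h | h ∈ closure (H715R2.Orb h₀) ∧
        ∃ j, j ≠ k ∧ ∃ t : ℝ, t ≠ 0 ∧ addRow h k j t ∈ closure (H715R2.Orb h₀)} with hB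
      have hBsub : closure B ⊆ closure (H715R2.Orb h₀) :=
        closure_minimal (fun h hh => hh.1) isClosed_closure
      have hBne : B.Nonempty := by
        have hself : h₀ ∈ closure (H715R2.Orb h₀) :=
          subset_closure (H715R2.mem_orb_self h₀)
        obtain ⟨j, hj, hsam⟩ := Y327.class_nontrivial hd hg hν hF hint hMg hM hself k
        obtain ⟨h, hh, hh'⟩ := Y327.root_dir hd hg hν hF hMg hM hself hj.symm hsam 1
        exact ⟨h, hh, j, hj, 1, one_ne_zero, by rw [addRow_eq]; exact hh'⟩
      have hBinv : ∀ h ∈ B, ∀ (a : Fin d → ℝ) (γ : Matrix (Fin d) (Fin d) ℤ), Y327.BB id a →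
          IsUnit γ.det → Matrix.diagonal a * h * H715R2.zR γ ∈ B := by
        rintro h ⟨hh, j, hj, t, ht, hh'⟩ a γ ha hγ
        refine ⟨hM.inv h hh a γ ha hγ, j, hj, a k * t * (a j)⁻¹,
          mul_ne_zero (mul_ne_zero (ha.1 k).ne' ht) (inv_pos.2 (ha.1 j)).ne', ?_⟩
        have h1 := hM.inv _ hh' a γ ha hγ
        rw [addRow_eq] at h1 ⊢
        have h3 : Matrix.diagonal a * Matrix.transvection k j t =
            Matrix.transvection k j (a k * t * (a j)⁻¹) * Matrix.diagonal a := by
          ext x y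
          rw [Matrix.diagonal_mul, Matrix.mul_diagonal]
          simp only [Matrix.transvection, Matrix.add_apply, Matrix.one_apply,
            Matrix.single_apply]
          by_cases hxy : x = y
          · subst hxy
            have h2 : ¬ (k = x ∧ j = x) := fun h0 => hj (h0.2.trans h0.1.symm)
            rw [if_pos rfl, if_neg h2, if_neg h2]
            ring
          · rw [if_neg hxy]
            by_cases h3 : k = x ∧ j = y
            · rw [if_pos h3, if_pos h3, ← h3.1, ← h3.2]
              have := (ha.1 j).ne'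
              field_simp
              ring
            · rw [if_neg h3, if_neg h3]
              ring
        have h4 : Matrix.diagonal a * (Matrix.transvection k j t * h) * H715R2.zR γ =
            Matrix.transvection k j (a k * t * (a j)⁻¹) *
              (Matrix.diagonal a * h * H715R2.zR γ) := by
          rw [← Matrix.mul_assoc (Matrix.diagonal a), h3]
          simp only [Matrix.mul_assoc]
        rw [h4] at h1
        exact h1
      have hBcinv : Y327.InvB id (closure B) := by
        intro h hh a γ ha hγ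
        have hcont : Continuous (fun h : Matrix (Fin d) (Fin d) ℝ =>
            Matrix.diagonal a * h * H715R2.zR γ) :=
          (continuous_const.matrix_mul continuous_id).matrix_mul continuous_const
        exact map_mem_closure (f := fun h : Matrix (Fin d) (Fin d) ℝ =>
          Matrix.diagonal a * h * H715R2.zR γ) hcont hh fun x hx => hBinv x hx a γ ha hγ
      rw [hM.min (closure B) hBsub isClosed_closure hBne.closure hBcinv]
    · rintro h ⟨hh, j, hj, t, ht, hh'⟩
      have hdet : h.det ≠ 0 := by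
        have hh2 := hh
        rw [closure_eq] at hh2
        rw [← abs_ne_zero, H715R2.abs_det_closure (hMg hh2), abs_ne_zero]
        exact hg
      exact partnered_of_addRow hh hdet hj ht hh'

end Pool.Agent.Results.MP_77d073_nt.AsymptoticPartners
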