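import Mathlib
import Pool.Agent.H202.ZR.Nowhere
import Pool.Graph.R_seed8.Y327.Full
import Pool.Graph.R_seed8.H905R2.OppD
import Pool.Graph.R_seed8.TH314.CSD.Scales
import Pool.Graph.R_pool_sql_team_seeded_2aa45f1a.Q34.CSD.ThinRich

/-! # MP_77d073_nt: the matrices of the near returns: commuting or Zariski dense

Let `n ≥ 3` and let `L = (L_1, …, L_n)` be independent linear forms (the rows of the matrix `L`)
whose product is bounded away from zero at the nonzero integer points. The positive diagonal matrices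
`a` of determinant one and the integral matrices `γ` act by `a L γ`. A near return of `L` is a matrix
`γ ∈ SL_n(ℤ)` for which some `a L γ` is within `ε` of `L`; we also prescribe a cone
`|log a - s α| ≤ δ s`, `s ≥ T`, of directions for `a`, which may be as thin and as far out as we like.
`L` is recurrent if it is a limit of each of its limits; every `L` has recurrent limits. If Oppenheim's
conclusion holds for `L`, the near returns (for small `ε`) come from the units of a field.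

1. The Zariski closure of the near returns. Let `L` be recurrent and let `Sym L` be the set of the
   rational matrices `σ` with `L_i ∘ σ` proportional to `L_i` for all `i` (a field of degree `n / s`,
   where `s = 1` exactly if Oppenheim's conclusion holds). If a polynomial in the `n²` entries
   vanishes at all near returns in some cone, it vanishes at all real matrices of determinant one
   which commute with `Sym L`. Conversely, for small `ε` all near returns commute with `Sym L`.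
2. Oppenheim's conclusion holds for `L` if and only if for some recurrent limit of `L` the near
   returns in some cone commute with each other.
3. Let `n` be prime. Oppenheim's conclusion holds for `L` if and only if for some recurrent limit the
   near returns in some cone lie on a hypersurface which does not contain `SL_n(ℝ)`. So the near
   returns of a recurrent counterexample are Zariski dense in `SL_n`, in every cone.
4. Let `n` be prime, let `L` be a recurrent counterexample and let `P` be a polynomial which does not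
   vanish on `SL_n(ℝ)`. For all directions `β` outside finitely many hyperplanes the limits of the
   systems `a_k L γ_k` with `P(γ_k) = 0`, where `a_k` goes to infinity in the direction `β`, form a
   nowhere dense set of limits: almost all returns avoid the hypersurface. -/

set_option autoImplicit false

open Filter Topology

namespace Pool.Agent.Results.MP_77d073_nt.NearReturns

variable {n : ℕ}

/-- the product of the linear forms with the coefficients `L i` at the integer point `p` -/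
noncomputable def F (L : Matrix (Fin n) (Fin n) ℝ) (p : Fin n → ℤ) : ℝ :=
  ∏ i : Fin n, ∑ j : Fin n, L i j * (p j : ℝ)

/-- the product is bounded away from zero at the nonzero integer points -/
def BoundedAway (L : Matrix (Fin n) (Fin n) ℝ) : Prop :=
  ∃ ν : ℝ, 0 < ν ∧ ∀ p : Fin n → ℤ, p ≠ 0 → ν ≤ |F L p|

/-- Oppenheim's conclusion: there is an irreducible RS-matrix whose invariant planes are the
hyperplanes `L i = 0`. -/
def HasMatrix (L : Matrix (Fin n) (Fin n) ℝ) : Prop :=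
  ∃ A : Matrix (Fin n) (Fin n) ℤ,
    A.det = 1 ∧
    Irreducible (A.charpoly.map (Int.castRingHom ℚ)) ∧
    (∀ z : ℂ, Polynomial.aeval z A.charpoly = 0 → z.im = 0) ∧
    ∀ i : Fin n, ∀ x : Fin n → ℝ, ∑ j, L i j * x j = 0 →
      ∑ j, L i j * ((A.map (Int.cast : ℤ → ℝ)).mulVec x) j = 0

/-- the limits of the systems `a L γ` with `a` positive of product one and with `γ` integral of
determinant `±1` -/
def Limits (L : Matrix (Fin n) (Fin n) ℝ) : Set (Matrix (Fin n) (Fin n) ℝ) :=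
  {L' | ∃ (a : ℕ → Fin n → ℝ) (γ : ℕ → Matrix (Fin n) (Fin n) ℤ),
    (∀ k i, 0 < a k i) ∧ (∀ k, ∏ i, a k i = 1) ∧ (∀ k, |(γ k).det| = 1) ∧
    Tendsto (fun k => Matrix.diagonal (a k) * L * (γ k).map (Int.cast : ℤ → ℝ)) atTop (𝓝 L')}

/-- `L` is a limit of each of its limits. -/
def Recurrent (L : Matrix (Fin n) (Fin n) ℝ) : Prop :=
  ∀ L' ∈ Limits L, L ∈ Limits L'

/-- The near returns `γ ∈ SL_n(ℤ)` of `L` in a cone of directions: the distance of some `a L γ` from
`L` is at most `ε`, with `a` positive of product one and `|log a - s α| ≤ δ s` for some `s ≥ T`. -/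
def Returns (L : Matrix (Fin n) (Fin n) ℝ) (α : Fin n → ℝ) (ε δ T : ℝ) :
    Set (Matrix (Fin n) (Fin n) ℤ) :=
  {γ | γ.det = 1 ∧ ∃ (a : Fin n → ℝ) (s : ℝ), (∀ i, 0 < a i) ∧ ∏ i, a i = 1 ∧ T ≤ s ∧
    (∀ i, |Real.log (a i) - s * α i| ≤ δ * s) ∧
    ∀ i j, |(Matrix.diagonal a * L * γ.map (Int.cast : ℤ → ℝ)) i j - L i j| ≤ ε}

/-- the rational matrices `σ` with `L i ∘ σ = c i L i` for all `i`, for some real numbers `c i` -/
def Sym (L : Matrix (Fin n) (Fin n) ℝ) : Set (Matrix (Fin n) (Fin n) ℚ) :=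
  {σ | ∃ c : Fin n → ℝ, L * σ.map (Rat.cast : ℚ → ℝ) = Matrix.diagonal c * L}

/-- the value of a polynomial in `n²` variables at the entries of a matrix -/
noncomputable def ev (P : MvPolynomial (Fin n × Fin n) ℝ) (g : Matrix (Fin n) (Fin n) ℝ) : ℝ :=
  MvPolynomial.eval (fun p => g p.1 p.2) P

/-- The limits of the systems `a_k L γ_k` with `P(γ_k) = 0`, where `γ_k` is integral of determinant
one and the positive `a_k` of product one go to infinity in the direction `β`. -/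
def ZeroLimits (L : Matrix (Fin n) (Fin n) ℝ) (β : Fin n → ℝ)
    (P : MvPolynomial (Fin n × Fin n) ℝ) : Set (Matrix (Fin n) (Fin n) ℝ) :=
  {L' | ∃ (a : ℕ → Fin n → ℝ) (γ : ℕ → Matrix (Fin n) (Fin n) ℤ) (s : ℕ → ℝ),
    (∀ k i, 0 < a k i) ∧ (∀ k, ∏ i, a k i = 1) ∧ (∀ k, (γ k).det = 1) ∧
    (∀ k, ev P ((γ k).map (Int.cast : ℤ → ℝ)) = 0) ∧ Tendsto s atTop atTop ∧
    (∀ i, Tendsto (fun k => Real.log (a k i) / s k) atTop (𝓝 (β i))) ∧
    Tendsto (fun k => Matrix.diagonal (a k) * L * (γ k).map (Int.cast : ℤ → ℝ)) atTop (𝓝 L')}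

instance : FirstCountableTopology (Matrix (Fin n) (Fin n) ℝ) :=
  inferInstanceAs (FirstCountableTopology (Fin n → Fin n → ℝ))

lemma limits_eq (L : Matrix (Fin n) (Fin n) ℝ) : Limits L = closure (H715R2.Orb L) := by
  ext L'
  constructor
  · rintro ⟨a, γ, ha, ha1, hγ, hlim⟩
    exact mem_closure_of_tendsto hlim (Eventually.of_forall fun k =>
      ⟨a k, γ k, ha k, ha1 k, Int.isUnit_iff_abs_eq.2 (hγ k), rfl⟩)
  · intro h
    obtain ⟨x, hx, hlim⟩ := mem_closure_iff_seq_limit.1 h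
    choose a γ ha ha1 hγ hxeq using hx
    refine ⟨a, γ, ha, ha1, fun k => Int.isUnit_iff_abs_eq.1 (hγ k), ?_⟩
    refine hlim.congr fun k => ?_
    rw [hxeq k]
    rfl

lemma recurrent_iff (L : Matrix (Fin n) (Fin n) ℝ) :
    Recurrent L ↔ Pool.Agent.TH314.CSD.Recurrent L := by
  unfold Recurrent Pool.Agent.TH314.CSD.Recurrent
  simp only [limits_eq]

lemma minB_of_recurrent {h : Matrix (Fin n) (Fin n) ℝ} (hh : Pool.Agent.TH314.CSD.Recurrent h) :
    Y327.MinB id (closure (H715R2.Orb h)) := by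
  refine ⟨isClosed_closure, ⟨h, subset_closure (H715R2.mem_orb_self h)⟩,
    Y327.invB_of_inv (TH314.CSD.inv_closure h) id, fun Z hZ hZc hZne hZinv => ?_⟩
  obtain ⟨h', hh'⟩ := hZne
  refine subset_antisymm hZ ?_
  have h1 : closure (H715R2.Orb h') ⊆ Z := by
    refine closure_minimal ?_ hZc
    rintro _ ⟨a, γ, ha0, ha1, hγ, rfl⟩
    exact hZinv h' hh' a γ ⟨ha0, ha1, fun i j hij => by rw [show i = j from hij]⟩ hγ
  exact (TH314.CSD.orb_closure_trans (hh h' (hZ hh'))).trans h1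

lemma det_ne {L : Matrix (Fin n) (Fin n) ℝ} (h : L.det ≠ 0) : LinearIndependent ℝ L :=
  Matrix.linearIndependent_rows_of_det_ne_zero h

lemma ev_mem (P : MvPolynomial (Fin n × Fin n) ℝ) :
    (fun Y => ev P Y) ∈ H202.ZR.PF n := H202.ZR.PF_eval P

/-- the near returns give zeros of `f` in a block -/
lemma apply_closure (hn : 3 ≤ n) {L : Matrix (Fin n) (Fin n) ℝ} (hL : L.det ≠ 0)
    (hb : BoundedAway L) (hrec : Recurrent L) {R : Fin n → Fin n → Prop} (hR : Equivalence R)
    (hsmall : ∀ i j, i ≠ j → R i j → Q34.CSDThin.Small (closure (H715R2.Orb L)) i j)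
    {α : Fin n → ℝ} (hα : ∑ i, α i = 0) {ε δ T : ℝ} (hε : 0 < ε) (hδ : 0 < δ)
    {f : Matrix (Fin n) (Fin n) ℝ → ℝ} (hf : f ∈ H202.ZR.PF n)
    (h0 : ∀ γ ∈ Returns L α ε δ T, f (γ.map (Int.cast : ℤ → ℝ)) = 0)
    {g : Matrix (Fin n) (Fin n) ℝ} (hg : g.det = 1) (hgR : H202.ZR.Bl R (L * g * L⁻¹)) :
    f g = 0 := by
  obtain ⟨ν, hν, hF⟩ := hb
  have hnu : H715R2.HasNu L ν := hF
  have hLu : IsUnit L.det := isUnit_iff_ne_zero.2 hL
  have hself := subset_closure (H715R2.mem_orb_self L)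
  have h1 := H202.ZR.closure_returns (d := n) (by omega) (abs_pos.2 hL) hν
    (minB_of_recurrent ((recurrent_iff L).1 hrec)) (fun h hh => H715R2.abs_det_closure hh)
    (fun h hh => H715R2.hasNu_closure hnu hh) hR hsmall hself hα (ε := δ) (T₀ := T) hδ
    (U := {Y | ∀ i j, |Y i j - L i j| < ε}) (H202.ZR.isOpen_entries L ε)
    (by
      intro i j
      rw [sub_self, abs_zero]
      exact hε)
    (f := fun Y => f (L⁻¹ * Y)) (H202.ZR.PF_mul_left hf L⁻¹)
    (fun a γ s ha ha1 hγ hs hs2 hmem => by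
      rw [← Matrix.mul_assoc, Matrix.nonsing_inv_mul _ hLu, Matrix.one_mul]
      exact h0 γ ⟨hγ, a, s, ha, ha1, hs, hs2, fun i j => (hmem i j).le⟩)
    (X := L * g * L⁻¹) hgR (by
      rw [Matrix.det_mul, Matrix.det_mul, hg, mul_one, Matrix.det_nonsing_inv,
        Ring.inverse_eq_inv', mul_inv_cancel₀ hL])
  have h2 : L⁻¹ * (L * g * L⁻¹ * L) = g := by
    rw [Matrix.mul_assoc (L * g), Matrix.nonsing_inv_mul _ hLu, Matrix.mul_one,
      ← Matrix.mul_assoc, Matrix.nonsing_inv_mul _ hLu, Matrix.one_mul]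
  simp only [h2] at h1
  exact h1

/-- the near returns of a system with Oppenheim's conclusion -/
lemma returns_diag {L : Matrix (Fin n) (Fin n) ℝ} (hL : L.det ≠ 0)
    (h : HasMatrix L) : ∃ ε : ℝ, 0 < ε ∧ ∀ (α : Fin n → ℝ) (δ T : ℝ), ∀ γ ∈ Returns L α ε δ T,
      ∃ c : Fin n → ℝ, L * γ.map (Int.cast : ℤ → ℝ) = Matrix.diagonal c * L := by
  obtain ⟨A, -, hA2, -, hA4⟩ := h
  obtain ⟨lam, hlam, hAL⟩ := Y327.eig_of_opp hL hA2 hA4
  have hLu : IsUnit L.det := isUnit_iff_ne_zero.2 hL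
  obtain ⟨ε, hε, hε2⟩ := H202.ZR.commute_all hL
  refine ⟨ε, hε, ?_⟩
  rintro α δ T γ ⟨hγ, a, s, ha, ha1, hs, hs2, hcl⟩
  have hA : A.map (Int.cast : ℤ → ℚ) ∈ H202.ZR.Sy L := by
    refine ⟨lam, ?_⟩
    rw [← hAL]
    congr 1
  have h1 := hε2 a γ (by rw [hγ]; exact isUnit_one) hcl (fun i => (ha i).ne') _ hA
  set G : Matrix (Fin n) (Fin n) ℝ := γ.map (Int.cast : ℤ → ℝ) with hG
  have h2 : H715R2.zR A * G = G * H715R2.zR A := by
    have h3 := congrArg (fun X : Matrix (Fin n) (Fin n) ℚ => X.map (Rat.cast : ℚ → ℝ)) h1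
    have h4 : ∀ B C : Matrix (Fin n) (Fin n) ℤ,
        (B.map (Int.cast : ℤ → ℚ) * C.map (Int.cast : ℤ → ℚ)).map (Rat.cast : ℚ → ℝ) =
        B.map (Int.cast : ℤ → ℝ) * C.map (Int.cast : ℤ → ℝ) := by
      intro B C
      ext i j
      simp [Matrix.mul_apply]
    simp only [h4] at h3
    exact h3
  -- the matrix `L G L⁻¹` commutes with `diag(lam)`
  set X := L * G * L⁻¹ with hX
  have h3 : Matrix.diagonal lam * X = X * Matrix.diagonal lam := by
    have e1 : L⁻¹ * L = 1 := Matrix.nonsing_inv_mul _ hLu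
    have e2 : L * L⁻¹ = 1 := Matrix.mul_nonsing_inv _ hLu
    calc Matrix.diagonal lam * X = (Matrix.diagonal lam * L) * G * L⁻¹ := by
          rw [hX]
          simp only [Matrix.mul_assoc]
      _ = L * (H715R2.zR A * G) * L⁻¹ := by
          rw [← hAL]
          simp only [Matrix.mul_assoc]
      _ = L * G * (L⁻¹ * L) * H715R2.zR A * L⁻¹ := by
          rw [h2, e1, Matrix.mul_one]
          simp only [Matrix.mul_assoc]
      _ = X * (L * H715R2.zR A) * L⁻¹ := by
          rw [hX]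
          simp only [Matrix.mul_assoc]
      _ = X * Matrix.diagonal lam * (L * L⁻¹) := by
          rw [hAL]
          simp only [Matrix.mul_assoc]
      _ = X * Matrix.diagonal lam := by rw [e2, Matrix.mul_one]
  have h4 : X = Matrix.diagonal fun i => X i i := by
    ext i j
    by_cases hij : i = j
    · subst hij
      rw [Matrix.diagonal_apply_eq]
    · rw [Matrix.diagonal_apply_ne _ hij]
      have h5 := congrFun (congrFun h3 i) j
      rw [Matrix.diagonal_mul, Matrix.mul_diagonal] at h5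
      have h6 : (lam i - lam j) * X i j = 0 := by
        rw [sub_mul, h5]
        ring
      exact (mul_eq_zero.1 h6).resolve_left (sub_ne_zero.2 fun h => hij (hlam h))
  refine ⟨fun i => X i i, ?_⟩
  rw [← h4, hX, Matrix.mul_assoc, Matrix.nonsing_inv_mul _ hLu, Matrix.mul_one]

/-- the block structure of a recurrent limit of a counterexample -/
lemma rich (hn : 3 ≤ n) {L L' : Matrix (Fin n) (Fin n) ℝ} (hL : L.det ≠ 0) (hb : BoundedAway L)
    (hno : ¬ HasMatrix L) (hL' : L' ∈ Limits L) (hrec : Recurrent L') :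
    ∃ s : ℕ, 1 < s ∧ s ∣ n ∧
      Q34.CSDThin.Rich (closure (H715R2.Orb L')) (Y327.Sam L') s := by
  obtain ⟨ν, hν, hF⟩ := hb
  have hnu : H715R2.HasNu L ν := hF
  have hint : ¬ H715R2.PropInt L := fun h => hno
    (Pool.Agent.H905R2.Opp.opp_of_propInt (by omega) (det_ne hL) ⟨ν, hν, hF⟩ h)
  rw [limits_eq] at hL'
  exact Q34.CSDThin.exists_rich hn hL hint hν hnu (TH314.CSD.orb_closure_trans hL')
    (minB_of_recurrent ((recurrent_iff L').1 hrec)) (subset_closure (H715R2.mem_orb_self L'))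

lemma det_limit {L L' : Matrix (Fin n) (Fin n) ℝ} (hL : L.det ≠ 0) (hL' : L' ∈ Limits L) :
    L'.det ≠ 0 := by
  rw [limits_eq] at hL'
  rw [← abs_ne_zero, H715R2.abs_det_closure hL', abs_ne_zero]
  exact hL

lemma bounded_limit {L L' : Matrix (Fin n) (Fin n) ℝ} (hb : BoundedAway L)
    (hL' : L' ∈ Limits L) : BoundedAway L' := by
  rw [limits_eq] at hL'
  obtain ⟨ν, hν, hF⟩ := hb
  exact ⟨ν, hν, H715R2.hasNu_closure hF hL'⟩

/-- a recurrent limit of a system with Oppenheim's conclusion -/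
lemma exists_rec (hn : 3 ≤ n) {L : Matrix (Fin n) (Fin n) ℝ} (hL : L.det ≠ 0)
    (hb : BoundedAway L) (h : HasMatrix L) : ∃ L' ∈ Limits L, Recurrent L' ∧ HasMatrix L' := by
  obtain ⟨ν, hν, hF⟩ := id hb
  have hnu : H715R2.HasNu L ν := hF
  obtain ⟨M, hMg, hM⟩ := Y327.exists_minB (by omega) id (abs_pos.2 hL) hν isClosed_closure
    ⟨L, subset_closure (H715R2.mem_orb_self L)⟩
    (Y327.invB_of_inv (TH314.CSD.inv_closure L) id)
    (fun _ hh => H715R2.abs_det_closure hh) (fun _ hh => H715R2.hasNu_closure hF hh)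
  obtain ⟨L', hL'⟩ := hM.ne
  have hL'2 : L' ∈ Limits L := by
    rw [limits_eq]
    exact hMg hL'
  refine ⟨L', hL'2, ?_, ?_⟩
  · rw [recurrent_iff]
    refine TH314.CSD.recurrent_of_minimal hM.closed (Y327.inv_of_invB hM.inv)
      (fun Y hY hYc hYn hYi => hM.min Y hY hYc hYn (Y327.invB_of_inv hYi id)) hL'
  · obtain ⟨A, -, hA2, -, hA4⟩ := h
    have hP := Y327.propInt_of_opp hn hL hν hnu hA2 hA4
    have hP' := Y327.propInt_closure hn hL hν hnu hP (hMg hL')
    exact Pool.Agent.H905R2.Opp.opp_of_propInt (by omega) (det_ne (det_limit hL hL'2))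
      (bounded_limit hb hL'2) hP'

lemma eq_equiv : Equivalence fun i j : Fin n => i = j :=
  ⟨fun _ => rfl, fun h => h.symm, fun h h' => h.trans h'⟩

lemma sam_equiv (L : Matrix (Fin n) (Fin n) ℝ) : Equivalence (Y327.Sam L) :=
  ⟨Y327.Sam.refl L, fun h => h.symm, fun h h' => h.trans h'⟩

/-- the Zariski closure contains the centralizer -/
lemma part_one (hn : 3 ≤ n) {L : Matrix (Fin n) (Fin n) ℝ} (hL : L.det ≠ 0)
    (hb : BoundedAway L) (hrec : Recurrent L) {α : Fin n → ℝ} (hα : ∑ i, α i = 0) {ε δ T : ℝ}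
    (hε : 0 < ε) (hδ : 0 < δ) {f : Matrix (Fin n) (Fin n) ℝ → ℝ} (hf : f ∈ H202.ZR.PF n)
    (h0 : ∀ γ ∈ Returns L α ε δ T, f (γ.map (Int.cast : ℤ → ℝ)) = 0)
    {g : Matrix (Fin n) (Fin n) ℝ} (hg : g.det = 1)
    (hgS : ∀ σ ∈ Sym L, σ.map (Rat.cast : ℚ → ℝ) * g = g * σ.map (Rat.cast : ℚ → ℝ)) :
    f g = 0 := by
  have hLu : IsUnit L.det := isUnit_iff_ne_zero.2 hL
  by_cases hM : HasMatrix L
  · refine apply_closure hn hL hb hrec eq_equiv (fun i j hij h => absurd h hij) hα hε hδ hf h0 hg ?_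
    obtain ⟨A, -, hA2, -, hA4⟩ := hM
    obtain ⟨lam, hlam, hAL⟩ := Y327.eig_of_opp hL hA2 hA4
    have hA : A.map (Int.cast : ℤ → ℚ) ∈ Sym L := ⟨lam, by
      rw [← hAL]
      congr 1⟩
    have h2 : H715R2.zR A * g = g * H715R2.zR A := hgS _ hA
    intro i j hij
    have h3 : Matrix.diagonal lam * (L * g * L⁻¹) = L * g * L⁻¹ * Matrix.diagonal lam := by
      have e1 : L⁻¹ * L = 1 := Matrix.nonsing_inv_mul _ hLu
      have e2 : L * L⁻¹ = 1 := Matrix.mul_nonsing_inv _ hLu
      calc Matrix.diagonal lam * (L * g * L⁻¹) = (Matrix.diagonal lam * L) * g * L⁻¹ := by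
            simp only [Matrix.mul_assoc]
        _ = L * (H715R2.zR A * g) * L⁻¹ := by
            rw [← hAL]
            simp only [Matrix.mul_assoc]
        _ = L * g * (L⁻¹ * L) * H715R2.zR A * L⁻¹ := by
            rw [h2, e1, Matrix.mul_one]
            simp only [Matrix.mul_assoc]
        _ = L * g * L⁻¹ * (L * H715R2.zR A) * L⁻¹ := by
            simp only [Matrix.mul_assoc]
        _ = L * g * L⁻¹ * Matrix.diagonal lam * (L * L⁻¹) := by
            rw [hAL]
            simp only [Matrix.mul_assoc]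
        _ = L * g * L⁻¹ * Matrix.diagonal lam := by rw [e2, Matrix.mul_one]
    have h5 := congrFun (congrFun h3 i) j
    rw [Matrix.diagonal_mul, Matrix.mul_diagonal] at h5
    have h6 : (lam i - lam j) * (L * g * L⁻¹) i j = 0 := by
      rw [sub_mul, h5]
      ring
    exact (mul_eq_zero.1 h6).resolve_left (sub_ne_zero.2 fun h => hij (hlam h))
  · have hself : L ∈ Limits L := by
      rw [limits_eq]
      exact subset_closure (H715R2.mem_orb_self L)
    obtain ⟨s, -, -, hR⟩ := rich hn hL hb hM hself hrec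
    exact apply_closure hn hL hb hrec (sam_equiv L) hR.small hα hε hδ hf h0 hg
      (H202.ZR.block_of_commute hL hgS)

lemma PF_comm (A B : Matrix (Fin n) (Fin n) ℝ) (i j : Fin n) :
    (fun Y : Matrix (Fin n) (Fin n) ℝ => (Y * B - A * Y) i j) ∈ H202.ZR.PF n := by
  have h1 : (fun Y : Matrix (Fin n) (Fin n) ℝ => (Y * B - A * Y) i j) =
      fun Y => ∑ k, Y i k * B k j + (-1) * ∑ k, A i k * Y k j := by
    funext Y
    rw [Matrix.sub_apply, Matrix.mul_apply, Matrix.mul_apply]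
    ring
  rw [h1]
  refine (H202.ZR.PF n).add_mem ?_ ?_
  · exact H202.ZR.PF_sum _ fun k _ => H202.ZR.PF_mul (H202.ZR.coord_mem i k)
      (H202.ZR.const_mem _)
  · exact H202.ZR.PF_mul (H202.ZR.const_mem _) (H202.ZR.PF_sum _ fun k _ =>
      H202.ZR.PF_mul (H202.ZR.const_mem _) (H202.ZR.coord_mem k j))

/-- commuting returns -/
lemma part_two (hn : 3 ≤ n) {L : Matrix (Fin n) (Fin n) ℝ} (hL : L.det ≠ 0)
    (hb : BoundedAway L) {L' : Matrix (Fin n) (Fin n) ℝ} (hL' : L' ∈ Limits L)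
    (hrec : Recurrent L') {α : Fin n → ℝ} (hα : ∑ i, α i = 0) {ε δ T : ℝ}
    (hε : 0 < ε) (hδ : 0 < δ)
    (hcomm : ∀ γ ∈ Returns L' α ε δ T, ∀ γ' ∈ Returns L' α ε δ T, γ * γ' = γ' * γ) :
    HasMatrix L := by
  classical
  by_contra hno
  obtain ⟨s, hs, -, hR⟩ := rich hn hL hb hno hL' hrec
  have hdet := det_limit hL hL'
  have hb' := bounded_limit hb hL'
  have hLu : IsUnit L'.det := isUnit_iff_ne_zero.2 hdet
  have happ : ∀ {f : Matrix (Fin n) (Fin n) ℝ → ℝ}, f ∈ H202.ZR.PF n →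
      (∀ γ ∈ Returns L' α ε δ T, f (γ.map (Int.cast : ℤ → ℝ)) = 0) →
      ∀ X : Matrix (Fin n) (Fin n) ℝ, X.det = 1 → H202.ZR.Bl (Y327.Sam L') X →
        f (L'⁻¹ * X * L') = 0 := by
    intro f hf h0 X hX hXB
    refine apply_closure hn hdet hb' hrec (sam_equiv L') hR.small hα hε hδ hf h0 ?_ ?_
    · rw [Matrix.det_mul, Matrix.det_mul, hX, mul_one, Matrix.det_nonsing_inv,
        Ring.inverse_eq_inv', inv_mul_cancel₀ hdet]
    · have e1 : L' * (L'⁻¹ * X * L') * L'⁻¹ = (L' * L'⁻¹) * X * (L' * L'⁻¹) := by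
        simp only [Matrix.mul_assoc]
      rw [e1, Matrix.mul_nonsing_inv _ hLu, Matrix.one_mul, Matrix.mul_one]
      exact hXB
  -- first step
  have h1 : ∀ X : Matrix (Fin n) (Fin n) ℝ, X.det = 1 → H202.ZR.Bl (Y327.Sam L') X →
      ∀ γ' ∈ Returns L' α ε δ T, (L'⁻¹ * X * L') * γ'.map (Int.cast : ℤ → ℝ) =
        γ'.map (Int.cast : ℤ → ℝ) * (L'⁻¹ * X * L') := by
    intro X hX hXB γ' hγ'
    ext i j
    have h2 := happ (PF_comm (γ'.map (Int.cast : ℤ → ℝ)) (γ'.map (Int.cast : ℤ → ℝ)) i j)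
      (fun γ hγ => by
        have h3 : γ.map (Int.cast : ℤ → ℝ) * γ'.map (Int.cast : ℤ → ℝ) =
            γ'.map (Int.cast : ℤ → ℝ) * γ.map (Int.cast : ℤ → ℝ) := by
          have h4 := congrArg H715R2.zR (hcomm γ hγ γ' hγ')
          rw [H715R2.zR_mul, H715R2.zR_mul] at h4
          exact h4
        rw [h3, sub_self, Matrix.zero_apply]) X hX hXB
    simp only [Matrix.sub_apply] at h2
    linarith
  have h2 : ∀ X X' : Matrix (Fin n) (Fin n) ℝ, X.det = 1 → H202.ZR.Bl (Y327.Sam L') X →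
      X'.det = 1 → H202.ZR.Bl (Y327.Sam L') X' →
      (L'⁻¹ * X * L') * (L'⁻¹ * X' * L') = (L'⁻¹ * X' * L') * (L'⁻¹ * X * L') := by
    intro X X' hX hXB hX' hXB'
    ext i j
    have h3 := happ (PF_comm (L'⁻¹ * X' * L') (L'⁻¹ * X' * L') i j)
      (fun γ hγ => by
        rw [← h1 X' hX' hXB' γ hγ, sub_self, Matrix.zero_apply]) X hX hXB
    simp only [Matrix.sub_apply] at h3
    linarith
  have h3 : ∀ X X' : Matrix (Fin n) (Fin n) ℝ, X.det = 1 → H202.ZR.Bl (Y327.Sam L') X →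
      X'.det = 1 → H202.ZR.Bl (Y327.Sam L') X' → X * X' = X' * X := by
    intro X X' hX hXB hX' hXB'
    have e2 : L' * L'⁻¹ = 1 := Matrix.mul_nonsing_inv _ hLu
    have h4 : ∀ A B : Matrix (Fin n) (Fin n) ℝ,
        L' * ((L'⁻¹ * A * L') * (L'⁻¹ * B * L')) * L'⁻¹ = A * B := by
      intro A B
      calc L' * ((L'⁻¹ * A * L') * (L'⁻¹ * B * L')) * L'⁻¹ =
          (L' * L'⁻¹) * A * (L' * L'⁻¹) * B * (L' * L'⁻¹) := by
            simp only [Matrix.mul_assoc]
        _ = A * B := by rw [e2, Matrix.one_mul, Matrix.mul_one, Matrix.mul_one]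
    rw [← h4 X X', ← h4 X' X, h2 X X' hX hXB hX' hXB']
  -- two transvections
  set i : Fin n := ⟨0, by omega⟩ with hi
  obtain ⟨j, hji, hij⟩ : ∃ j, j ≠ i ∧ Y327.Sam L' i j := by
    by_contra hcon
    push Not at hcon
    have h5 := hR.card i
    have h6 : Nat.card {j // Y327.Sam L' i j} ≤ 1 := by
      rw [Nat.card_eq_fintype_card]
      refine Fintype.card_le_one_iff.2 ?_
      rintro ⟨a, ha⟩ ⟨b, hb⟩
      apply Subtype.ext
      have ha' : a = i := by
        by_contra h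
        exact hcon a h ha
      have hb' : b = i := by
        by_contra h
        exact hcon b h hb
      simp only
      rw [ha', hb']
    omega
  have hBl : ∀ a b : Fin n, a ≠ b → Y327.Sam L' a b →
      H202.ZR.Bl (Y327.Sam L') (Matrix.transvection a b 1) := by
    intro a b hab hS k l hkl
    have h5 : k ≠ l := by
      rintro rfl
      exact hkl (Y327.Sam.refl _ _)
    unfold Matrix.transvection
    rw [Matrix.add_apply, Matrix.one_apply_ne h5, zero_add, Matrix.single_apply, if_neg]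
    rintro ⟨rfl, rfl⟩
    exact hkl hS
  have h5 := h3 (Matrix.transvection i j 1) (Matrix.transvection j i 1)
    (Matrix.det_transvection_of_ne _ _ (Ne.symm hji) _) (hBl i j (Ne.symm hji) hij)
    (Matrix.det_transvection_of_ne _ _ hji _) (hBl j i hji hij.symm)
  have h6 := congrFun (congrFun h5 i) i
  rw [H202.ZR.trans_apply, H202.ZR.trans_apply, if_pos rfl, if_neg (Ne.symm hji)] at h6
  unfold Matrix.transvection at h6
  simp only [Matrix.add_apply, Matrix.one_apply_eq, Matrix.single_apply] at h6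
  rw [Matrix.one_apply_ne hji] at h6
  simp [hji] at h6

/-- in prime dimension all rows of a recurrent limit of a counterexample are in one class -/
lemma sam_all (hp : n.Prime) {L' : Matrix (Fin n) (Fin n) ℝ}
    {M : Set (Matrix (Fin n) (Fin n) ℝ)} {s : ℕ} (hs : 1 < s) (hsn : s ∣ n)
    (hR : Q34.CSDThin.Rich M (Y327.Sam L') s) (i j : Fin n) : Y327.Sam L' i j := by
  classical
  have hsn' : s = n := by
    rcases (Nat.dvd_prime hp).1 hsn with h | h
    · omega
    · exact h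
  have h1 := hR.card i
  rw [Nat.card_eq_fintype_card, Fintype.card_subtype] at h1
  have h2 : Finset.univ.filter (fun j => Y327.Sam L' i j) = Finset.univ := by
    refine Finset.eq_univ_of_card _ ?_
    rw [h1, Fintype.card_fin, hsn']
  have h3 : j ∈ Finset.univ.filter (fun j => Y327.Sam L' i j) := by
    rw [h2]
    exact Finset.mem_univ j
  exact (Finset.mem_filter.1 h3).2

/-- returns on a hypersurface, `n` prime -/
lemma part_three (hn : 3 ≤ n) (hp : n.Prime) {L : Matrix (Fin n) (Fin n) ℝ} (hL : L.det ≠ 0)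
    (hb : BoundedAway L) {L' : Matrix (Fin n) (Fin n) ℝ} (hL' : L' ∈ Limits L)
    (hrec : Recurrent L') {α : Fin n → ℝ} (hα : ∑ i, α i = 0) {ε δ T : ℝ}
    (hε : 0 < ε) (hδ : 0 < δ) {f : Matrix (Fin n) (Fin n) ℝ → ℝ} (hf : f ∈ H202.ZR.PF n)
    (h0 : ∀ γ ∈ Returns L' α ε δ T, f (γ.map (Int.cast : ℤ → ℝ)) = 0)
    {g : Matrix (Fin n) (Fin n) ℝ} (hg : g.det = 1) (hfg : f g ≠ 0) : HasMatrix L := by
  by_contra hno
  obtain ⟨s, hs, hsn, hR⟩ := rich hn hL hb hno hL' hrec
  refine hfg (apply_closure hn (det_limit hL hL') (bounded_limit hb hL') hrec (sam_equiv L')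
    hR.small hα hε hδ hf h0 hg fun i j hij => ?_)
  exact absurd (sam_all hp hs hsn hR i j) hij

/-- an entry of `L Y L⁻¹` as a polynomial -/
lemma exists_poly (L : Matrix (Fin n) (Fin n) ℝ) (i j : Fin n) :
    ∃ P : MvPolynomial (Fin n × Fin n) ℝ, ∀ Y, ev P Y = (L * Y * L⁻¹) i j := by
  refine ⟨∑ k, ∑ l, MvPolynomial.C (L i k * L⁻¹ l j) * MvPolynomial.X (k, l), fun Y => ?_⟩
  unfold ev
  simp only [map_sum, map_mul, MvPolynomial.eval_C, MvPolynomial.eval_X]
  rw [Matrix.mul_apply, Finset.sum_comm]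
  refine Finset.sum_congr rfl fun l _ => ?_
  rw [Matrix.mul_apply, Finset.sum_mul]
  exact Finset.sum_congr rfl fun k _ => by ring

/-- the limits of the returns on a hypersurface -/
lemma zeroLimits_sub {L : Matrix (Fin n) (Fin n) ℝ} (hL : L.det ≠ 0) {β : Fin n → ℝ}
    {P : MvPolynomial (Fin n × Fin n) ℝ} :
    ZeroLimits L β P ⊆ H202.ZR.ZLim L β fun Y => ev P (L⁻¹ * Y) := by
  rintro L' ⟨a, γ, s, ha, ha1, hγ, hP, hs, hab, hlim⟩ U' hU' hLU' N
  have hLu : IsUnit L.det := isUnit_iff_ne_zero.2 hL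
  have h1 : ∀ᶠ k in atTop, (N + 1 : ℝ) ≤ s k := hs.eventually_ge_atTop _
  have h2 : ∀ᶠ k in atTop, ∀ i, |Real.log (a k i) / s k - β i| < 1 / (N + 1) := by
    rw [Filter.eventually_all]
    intro i
    have h3 := Metric.tendsto_atTop.1 (hab i) (1 / (N + 1)) (by positivity)
    obtain ⟨K, hK⟩ := h3
    filter_upwards [Filter.eventually_ge_atTop K] with k hk
    have := hK k hk
    rwa [Real.dist_eq] at this
  have h3 : ∀ᶠ k in atTop, Matrix.diagonal (a k) * L * (γ k).map (Int.cast : ℤ → ℝ) ∈ U' :=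
    hlim.eventually (hU'.mem_nhds hLU')
  obtain ⟨k, hk1, hk2, hk3⟩ := (h1.and (h2.and h3)).exists
  refine ⟨a k, γ k, s k, ha k, ha1 k, by rw [hγ k]; exact isUnit_one, hk1, fun i => ?_, hk3, ?_⟩
  · have hsk : 0 < s k := by
      have : (0 : ℝ) ≤ N := Nat.cast_nonneg _
      linarith
    have h4 : Real.log (a k i) - s k * β i = s k * (Real.log (a k i) / s k - β i) := by
      field_simp
    rw [h4, abs_mul, abs_of_pos hsk]
    have h5 := mul_le_mul_of_nonneg_left (hk2 i).le hsk.le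
    rw [mul_one_div] at h5
    exact h5
  · simp only
    rw [← Matrix.mul_assoc, Matrix.nonsing_inv_mul _ hLu, Matrix.one_mul]
    exact hP k

theorem result (n : ℕ) (hn : 3 ≤ n) :
    -- 1. the Zariski closure of the near returns of a recurrent system
    (∀ L : Matrix (Fin n) (Fin n) ℝ, L.det ≠ 0 → BoundedAway L → Recurrent L →
      (∀ (α : Fin n → ℝ) (ε δ T : ℝ), ∑ i, α i = 0 → 0 < ε → 0 < δ →
        ∀ P : MvPolynomial (Fin n × Fin n) ℝ,
          (∀ γ ∈ Returns L α ε δ T, ev P (γ.map (Int.cast : ℤ → ℝ)) = 0) →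
          ∀ g : Matrix (Fin n) (Fin n) ℝ, g.det = 1 →
            (∀ σ ∈ Sym L, σ.map (Rat.cast : ℚ → ℝ) * g = g * σ.map (Rat.cast : ℚ → ℝ)) →
            ev P g = 0) ∧
      (∃ ε : ℝ, 0 < ε ∧ ∀ (α : Fin n → ℝ) (δ T : ℝ), ∀ γ ∈ Returns L α ε δ T, ∀ σ ∈ Sym L,
        σ * γ.map (Int.cast : ℤ → ℚ) = γ.map (Int.cast : ℤ → ℚ) * σ)) ∧
    -- 2. Oppenheim's conclusion and commuting near returns
    (∀ L : Matrix (Fin n) (Fin n) ℝ, L.det ≠ 0 → BoundedAway L →
      (HasMatrix L ↔ ∃ L' ∈ Limits L, Recurrent L' ∧ ∃ (α : Fin n → ℝ) (ε δ T : ℝ),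
        ∑ i, α i = 0 ∧ 0 < ε ∧ 0 < δ ∧
        ∀ γ ∈ Returns L' α ε δ T, ∀ γ' ∈ Returns L' α ε δ T, γ * γ' = γ' * γ)) ∧
    -- 3. prime dimensions: Oppenheim's conclusion and near returns on a hypersurface
    (n.Prime → ∀ L : Matrix (Fin n) (Fin n) ℝ, L.det ≠ 0 → BoundedAway L →
      (HasMatrix L ↔ ∃ L' ∈ Limits L, Recurrent L' ∧ ∃ (α : Fin n → ℝ) (ε δ T : ℝ)
        (P : MvPolynomial (Fin n × Fin n) ℝ), ∑ i, α i = 0 ∧ 0 < ε ∧ 0 < δ ∧
        (∀ γ ∈ Returns L' α ε δ T, ev P (γ.map (Int.cast : ℤ → ℝ)) = 0) ∧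
        ∃ g : Matrix (Fin n) (Fin n) ℝ, g.det = 1 ∧ ev P g ≠ 0)) ∧
    -- 4. prime dimensions: almost no returns of a counterexample are on a given hypersurface
    (n.Prime → ∀ L : Matrix (Fin n) (Fin n) ℝ, L.det ≠ 0 → BoundedAway L → Recurrent L →
      ¬ HasMatrix L → ∀ P : MvPolynomial (Fin n × Fin n) ℝ,
        (∃ g : Matrix (Fin n) (Fin n) ℝ, g.det = 1 ∧ ev P g ≠ 0) →
        ∃ Q : Finset (Fin n → ℤ), (∀ q ∈ Q, ∃ i j, q i ≠ q j) ∧ ∀ β : Fin n → ℝ,
          (∀ q ∈ Q, ∑ i, β i * (q i : ℝ) ≠ 0) → ∀ U : Set (Matrix (Fin n) (Fin n) ℝ), IsOpen U →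
            (∃ L' ∈ Limits L, L'.det = L.det ∧ L' ∈ U) →
            ∃ L' ∈ Limits L, L'.det = L.det ∧ L' ∈ U ∧ L' ∉ closure (ZeroLimits L β P)) := by
  classical
  refine ⟨?_, ?_, ?_, ?_⟩
  · intro L hL hb hrec
    constructor
    · intro α ε δ T hα hε hδ P hP g hg hgS
      exact part_one hn hL hb hrec hα hε hδ (ev_mem P) hP hg hgS
    · obtain ⟨ε, hε, hε2⟩ := H202.ZR.commute_all hL
      refine ⟨ε, hε, ?_⟩
      rintro α δ T γ ⟨hγ, a, s, ha, ha1, hs, hs2, hcl⟩ σ hσ
      exact hε2 a γ (by rw [hγ]; exact isUnit_one) hcl (fun i => (ha i).ne') σ hσ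
  · intro L hL hb
    constructor
    · intro h
      obtain ⟨L', hL', hrec, hM'⟩ := exists_rec hn hL hb h
      have hdet := det_limit hL hL'
      have hLu : IsUnit L'.det := isUnit_iff_ne_zero.2 hdet
      obtain ⟨ε, hε, hε2⟩ := returns_diag hdet hM'
      refine ⟨L', hL', hrec, 0, ε, 1, 1, by simp, hε, one_pos, fun γ hγ γ' hγ' => ?_⟩
      obtain ⟨c, hc⟩ := hε2 0 1 1 γ hγ
      obtain ⟨c', hc'⟩ := hε2 0 1 1 γ' hγ'
      have h1 : ∀ A B : Matrix (Fin n) (Fin n) ℤ, ∀ c c' : Fin n → ℝ,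
          L' * H715R2.zR A = Matrix.diagonal c * L' → L' * H715R2.zR B = Matrix.diagonal c' * L' →
          L' * H715R2.zR (A * B) = Matrix.diagonal (fun i => c i * c' i) * L' := by
        intro A B c c' hA hB
        rw [H715R2.zR_mul, ← Matrix.mul_assoc, hA, Matrix.mul_assoc, hB, ← Matrix.mul_assoc,
          Matrix.diagonal_mul_diagonal]
      have h2 : L' * H715R2.zR (γ * γ') = L' * H715R2.zR (γ' * γ) := by
        rw [h1 γ γ' c c' hc hc', h1 γ' γ c' c hc' hc]
        simp only [mul_comm]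
      have h3 : H715R2.zR (γ * γ') = H715R2.zR (γ' * γ) := by
        have h4 := congrArg (fun X => L'⁻¹ * X) h2
        simp only [← Matrix.mul_assoc, Matrix.nonsing_inv_mul _ hLu, Matrix.one_mul] at h4
        exact h4
      exact Matrix.map_injective Int.cast_injective h3
    · rintro ⟨L', hL', hrec, α, ε, δ, T, hα, hε, hδ, hcomm⟩
      exact part_two hn hL hb hL' hrec hα hε hδ hcomm
  · intro hp L hL hb
    constructor
    · intro h
      obtain ⟨L', hL', hrec, hM'⟩ := exists_rec hn hL hb h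
      have hdet := det_limit hL hL'
      have hLu : IsUnit L'.det := isUnit_iff_ne_zero.2 hdet
      obtain ⟨ε, hε, hε2⟩ := returns_diag hdet hM'
      set i : Fin n := ⟨0, by omega⟩ with hi
      set j : Fin n := ⟨1, by omega⟩ with hj
      have hij : i ≠ j := by
        intro h0
        simp [hi, hj] at h0
      obtain ⟨P, hP⟩ := exists_poly L' i j
      refine ⟨L', hL', hrec, 0, ε, 1, 1, P, by simp, hε, one_pos, fun γ hγ => ?_,
        L'⁻¹ * Matrix.transvection i j 1 * L', ?_, ?_⟩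
      · obtain ⟨c, hc⟩ := hε2 0 1 1 γ hγ
        rw [hP, hc, Matrix.mul_assoc, Matrix.mul_nonsing_inv _ hLu, Matrix.mul_one,
          Matrix.diagonal_apply_ne _ hij]
      · rw [Matrix.det_mul, Matrix.det_mul, Matrix.det_transvection_of_ne _ _ hij, mul_one,
          Matrix.det_nonsing_inv, Ring.inverse_eq_inv', inv_mul_cancel₀ hdet]
      · have e1 : L' * (L'⁻¹ * Matrix.transvection i j 1 * L') * L'⁻¹ =
            (L' * L'⁻¹) * Matrix.transvection i j 1 * (L' * L'⁻¹) := by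
          simp only [Matrix.mul_assoc]
        rw [hP, e1, Matrix.mul_nonsing_inv _ hLu, Matrix.one_mul, Matrix.mul_one]
        unfold Matrix.transvection
        rw [Matrix.add_apply, Matrix.one_apply_ne hij, zero_add, Matrix.single_apply,
          if_pos ⟨rfl, rfl⟩]
        exact one_ne_zero
    · rintro ⟨L', hL', hrec, α, ε, δ, T, P, hα, hε, hδ, hP, g, hg, hPg⟩
      exact part_three hn hp hL hb hL' hrec hα hε hδ (ev_mem P) hP hg hPg
  · rintro hp L hL hb hrec hno P ⟨g, hg, hPg⟩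
    have hself : L ∈ Limits L := by
      rw [limits_eq]
      exact subset_closure (H715R2.mem_orb_self L)
    have hLu : IsUnit L.det := isUnit_iff_ne_zero.2 hL
    obtain ⟨s, hs, hsn, hR⟩ := rich hn hL hb hno hself hrec
    obtain ⟨Q, hQ, hQ2⟩ := H202.ZR.nowhere (d := n) (by omega) (abs_pos.2 hL) hR.min
      (fun h hh => H715R2.abs_det_closure hh)
      (fun i j hij => hR.small i j hij (sam_all hp hs hsn hR i j))
      (subset_closure (H715R2.mem_orb_self L)) (f := fun Y => ev P (L⁻¹ * Y))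
      (H202.ZR.PF_mul_left (ev_mem P) L⁻¹) ⟨L * g, by rw [Matrix.det_mul, hg, mul_one], by
        rw [← Matrix.mul_assoc, Matrix.nonsing_inv_mul _ hLu, Matrix.one_mul]
        exact hPg⟩
    refine ⟨Q, hQ, fun β hβ U hU hne => ?_⟩
    rw [limits_eq] at hne ⊢
    obtain ⟨Y, hY, hYdet, hYU, hYZ⟩ := hQ2 β hβ U hU hne
    refine ⟨Y, hY, hYdet, hYU, fun h => hYZ fun U' hU' hYU' N => ?_⟩
    obtain ⟨Y', hY'U, hY'⟩ := mem_closure_iff.1 h U' hU' hYU'
    exact zeroLimits_sub hL hY' U' hU' hY'U N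

end Pool.Agent.Results.MP_77d073_nt.NearReturns
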