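import Mathlib
import Pool.Agent.Results.MP_77d073_nt.NearReturns
import Pool.Agent.Results.MP_edeaa2_an.EigenvalueFields
import Pool.Graph.R_pool_sql_team_seeded_64922ed1.X87.CSD.Isolate

/-! # MP_77d073_nt: the near returns in one ball decide

Let `n ≥ 3` and let `L = (L_1, …, L_n)` be independent linear forms (the rows of the matrix `L`)
whose product is bounded away from zero at the nonzero integer points. The positive diagonal matrices
of determinant one form a group, with balls for the maximum norm of the logarithms. A near return of a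
system `X` is a matrix `γ ∈ SL_n(ℤ)` with `a X γ = (1 + E) X`, `|E i j| ≤ ε`, for a positive diagonal
matrix `a` of determinant one; its length is the norm of `log a`, and we also prescribe a cone
`|log a - s α| ≤ δ s`, `s ≥ T`, of directions for `a`, which may be as thin and as far out as we like.

1. (One ball decides.) For all `V, ν > 0`, all cones, all `ε > 0`, all number fields `K ⊂ ℝ` and all
   `N` there is a radius `R` with the following property. Let `L` be any counterexample to Oppenheim's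
   conjecture with `|det L| = V` and `|F L| ≥ ν` at the nonzero integer points. Then in each ball of
   radius `R` there is a `c` such that `c L` has two near returns in the cone, of length at most `R`,
   which do not commute; a `c` such that `c L` has such a near return which is an irreducible
   RS-matrix without eigenvalue in `K`; and a `c` such that `c L` has such a near return which is an
   irreducible RS-matrix with an eigenvalue `x` such that the field `ℚ(x)` has discriminant greater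
   than `N`. So Oppenheim's conclusion holds for `L` if in one ball of radius `R` all these near
   returns commute, or have an eigenvalue in `K`, or come from fields of discriminant at most `N`.
2. (Converse.) If Oppenheim's conclusion holds for `L`, then for some `ε > 0` and some number field `K`
   the near returns of each `c L` commute, and all their eigenvalues are in `K`.

This is a uniform, local form of `NearReturns` and `EigenvalueFields` (MP_edeaa2_an), which treat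
recurrent limits. The proof of 1 uses them, compactness, and the theorem that systems with
Oppenheim's conclusion are isolated among the systems with `|det L| = V` and `|F L| ≥ ν`. -/

set_option autoImplicit false

open Filter Topology Matrix

namespace Pool.Agent.Results.MP_77d073_nt.OneBall

variable {n : ℕ}

/-- the product of the linear forms with the coefficients `L i` at the integer point `p` -/
noncomputable def F (L : Matrix (Fin n) (Fin n) ℝ) (p : Fin n → ℤ) : ℝ :=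
  ∏ i : Fin n, ∑ j : Fin n, L i j * (p j : ℝ)

/-- the product is bounded away from zero at the nonzero integer points -/
def BoundedAway (L : Matrix (Fin n) (Fin n) ℝ) : Prop :=
  ∃ ν : ℝ, 0 < ν ∧ ∀ p : Fin n → ℤ, p ≠ 0 → ν ≤ |F L p|

/-- Oppenheim's conclusion: there is an irreducible RS-matrix whose invariant planes are the
hyperplanes `L i = 0`. -/
def HasMatrix (L : Matrix (Fin n) (Fin n) ℝ) : Prop :=
  ∃ A : Matrix (Fin n) (Fin n) ℤ,
    A.det = 1 ∧
    Irreducible (A.charpoly.map (Int.castRingHom ℚ)) ∧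
    (∀ z : ℂ, Polynomial.aeval z A.charpoly = 0 → z.im = 0) ∧
    ∀ i : Fin n, ∀ x : Fin n → ℝ, ∑ j, L i j * x j = 0 →
      ∑ j, L i j * ((A.map (Int.cast : ℤ → ℝ)).mulVec x) j = 0

/-- the group of the positive diagonal matrices of determinant one -/
def Diag (n : ℕ) : Set (Fin n → ℝ) := {c | (∀ i, 0 < c i) ∧ ∏ i, c i = 1}

/-- the ball with the centre `b` and the radius `R`, for the maximum norm of the logarithms -/
def Ball (b : Fin n → ℝ) (R : ℝ) : Set (Fin n → ℝ) :=
  {c | c ∈ Diag n ∧ ∀ i, |Real.log (c i) - Real.log (b i)| ≤ R}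

/-- The near returns `γ ∈ SL_n(ℤ)` of `X` of length at most `R` in a cone of directions: the system
`a X γ` is `(1 + E) X` with `|E i j| ≤ ε`, for some `a` in the ball of radius `R` with
`|log a - s α| ≤ δ s` for some `s ≥ T`. -/
def Returns (X : Matrix (Fin n) (Fin n) ℝ) (α : Fin n → ℝ) (ε δ T R : ℝ) :
    Set (Matrix (Fin n) (Fin n) ℤ) :=
  {γ | γ.det = 1 ∧ ∃ (a : Fin n → ℝ) (s : ℝ) (E : Matrix (Fin n) (Fin n) ℝ), a ∈ Ball 1 R ∧
    T ≤ s ∧ (∀ i, |Real.log (a i) - s * α i| ≤ δ * s) ∧ (∀ i j, |E i j| ≤ ε) ∧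
    Matrix.diagonal a * X * γ.map (Int.cast : ℤ → ℝ) = (1 + E) * X}

/-- `z` is an eigenvalue of `γ` -/
def Eigenvalue (γ : Matrix (Fin n) (Fin n) ℤ) (z : ℂ) : Prop :=
  Polynomial.aeval z γ.charpoly = 0

/-- `γ` is an irreducible RS-matrix (if its determinant is one): its characteristic polynomial is
irreducible over the rational numbers and all its eigenvalues are real. -/
def IrrRS (γ : Matrix (Fin n) (Fin n) ℤ) : Prop :=
  Irreducible (γ.charpoly.map (Int.castRingHom ℚ)) ∧ ∀ z : ℂ, Eigenvalue γ z → z.im = 0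

instance : FirstCountableTopology (Matrix (Fin n) (Fin n) ℝ) :=
  inferInstanceAs (FirstCountableTopology (Fin n → Fin n → ℝ))

/-- a limit of systems, and a recurrent limit of it -/
lemma exists_limit (hn : 0 < n) {V ν : ℝ} (hV : 0 < V) (hν : 0 < ν)
    {L : ℕ → Matrix (Fin n) (Fin n) ℝ} (hL : ∀ m, |(L m).det| = V)
    (hF : ∀ m, H715R2.HasNu (L m) ν) {b : ℕ → Fin n → ℝ} (hbD : ∀ m, b m ∈ Diag n) :
    ∃ L₁ : Matrix (Fin n) (Fin n) ℝ, |L₁.det| = V ∧ H715R2.HasNu L₁ ν ∧
      (∀ U : Set (Matrix (Fin n) (Fin n) ℝ), IsOpen U → L₁ ∈ U →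
        ∃ (m : ℕ) (η : Matrix (Fin n) (Fin n) ℤ), IsUnit η.det ∧
          Matrix.diagonal (b m) * L m * H715R2.zR η ∈ U) ∧
      ∃ L' ∈ closure (H715R2.Orb L₁), Pool.Agent.TH314.CSD.Recurrent L' ∧
      ∀ U : Set (Matrix (Fin n) (Fin n) ℝ), IsOpen U → L' ∈ U → ∀ m₀ : ℕ, ∃ m ≥ m₀,
        ∃ (c : Fin n → ℝ) (η : Matrix (Fin n) (Fin n) ℤ), c ∈ Ball (b m) m ∧ IsUnit η.det ∧
          Matrix.diagonal c * L m * H715R2.zR η ∈ U := by
  classical
  obtain ⟨R, hR⟩ := H715R2.exists_bound hn V ν hV hν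
  have horb : ∀ m, Matrix.diagonal (b m) * L m ∈ closure (H715R2.Orb (L m)) := fun m =>
    subset_closure ⟨b m, 1, (hbD m).1, (hbD m).2, by simp, by
      simp [H715R2.zR_one]⟩
  choose η hη hηR using fun m => hR (Matrix.diagonal (b m) * L m)
    ((H715R2.abs_det_closure (horb m)).trans (hL m)) (H715R2.hasNu_closure (hF m) (horb m))
  have horb2 : ∀ m, Matrix.diagonal (b m) * L m * H715R2.zR (η m) ∈
      closure (H715R2.Orb (L m)) := fun m =>
    subset_closure ⟨b m, η m, (hbD m).1, (hbD m).2, hη m, rfl⟩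
  obtain ⟨L₁, -, φ, hφ, hlim⟩ := (H715R2.isCompact_box (d := n) R).tendsto_subseq hηR
  have hL₁ : L₁ ∈ X87.CSD.NN n V ν := (X87.CSD.NN_closed V ν).mem_of_tendsto hlim
    (Eventually.of_forall fun m => ⟨(H715R2.abs_det_closure (horb2 _)).trans (hL _),
      H715R2.hasNu_closure (hF _) (horb2 _)⟩)
  have hdet₁ : 0 < |L₁.det| := by
    rw [hL₁.1]
    exact hV
  obtain ⟨M, hMg, hM⟩ := Y327.exists_minB hn id hdet₁ hν isClosed_closure
    ⟨L₁, subset_closure (H715R2.mem_orb_self L₁)⟩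
    (Y327.invB_of_inv (TH314.CSD.inv_closure L₁) id)
    (fun _ hh => H715R2.abs_det_closure hh)
    (fun _ hh => H715R2.hasNu_closure hL₁.2 hh)
  obtain ⟨L', hL'⟩ := hM.ne
  refine ⟨L₁, hL₁.1, hL₁.2, ?_, L', hMg hL', ?_, ?_⟩
  · intro U hU hLU
    obtain ⟨m, hm⟩ := (hlim.eventually (hU.mem_nhds hLU)).exists
    exact ⟨φ m, η (φ m), hη _, hm⟩
  · exact TH314.CSD.recurrent_of_minimal hM.closed (Y327.inv_of_invB hM.inv)
      (fun Y hY hYc hYn hYi => hM.min Y hY hYc hYn (Y327.invB_of_inv hYi id)) hL'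
  · intro U hU hLU m₀
    obtain ⟨Y, hYU, a, γ, ha0, ha1, hγ, rfl⟩ := mem_closure_iff.1 (hMg hL') U hU hLU
    have hcont : Continuous (fun h : Matrix (Fin n) (Fin n) ℝ =>
        Matrix.diagonal a * h * H715R2.zR γ) :=
      (continuous_const.matrix_mul continuous_id).matrix_mul continuous_const
    have h1 := ((hcont.tendsto L₁).comp hlim).eventually (hU.mem_nhds hYU)
    set B : ℝ := ∑ i, |Real.log (a i)| with hB
    have h2 : ∀ᶠ m in atTop, m₀ ≤ φ m := hφ.tendsto_atTop.eventually_ge_atTop m₀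
    have h3 : ∀ᶠ m in atTop, ⌈B⌉₊ ≤ φ m := hφ.tendsto_atTop.eventually_ge_atTop _
    obtain ⟨m, hm1, hm2, hm3⟩ := (h1.and (h2.and h3)).exists
    refine ⟨φ m, hm2, fun i => a i * b (φ m) i, η (φ m) * γ, ⟨⟨fun i => mul_pos (ha0 i)
      ((hbD _).1 i), ?_⟩, fun i => ?_⟩, ?_, ?_⟩
    · rw [Finset.prod_mul_distrib, ha1, (hbD _).2, one_mul]
    · rw [Real.log_mul (ha0 i).ne' ((hbD _).1 i).ne', add_sub_cancel_right]
      calc |Real.log (a i)| ≤ B := Finset.single_le_sum (f := fun i => |Real.log (a i)|)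
            (fun i _ => abs_nonneg _) (Finset.mem_univ i)
        _ ≤ ⌈B⌉₊ := Nat.le_ceil _
        _ ≤ (φ m : ℝ) := by exact_mod_cast hm3
    · rw [Matrix.det_mul]
      exact (hη _).mul hγ
    · have h4 : Matrix.diagonal (fun i => a i * b (φ m) i) * L (φ m) *
          H715R2.zR (η (φ m) * γ) =
          Matrix.diagonal a * (Matrix.diagonal (b (φ m)) * L (φ m) * H715R2.zR (η (φ m))) *
            H715R2.zR γ := by
        rw [H715R2.zR_mul, ← Matrix.diagonal_mul_diagonal]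
        simp only [Matrix.mul_assoc]
      rw [h4]
      exact hm1

/-- near returns and systems nearby -/
lemma near_open {L' : Matrix (Fin n) (Fin n) ℝ} (hL' : L'.det ≠ 0) {a : Fin n → ℝ}
    {γ : Matrix (Fin n) (Fin n) ℤ} {ε : ℝ} (h : H202.EF.Nr L' ε a γ) :
    ∃ U : Set (Matrix (Fin n) (Fin n) ℝ), IsOpen U ∧ L' ∈ U ∧ ∀ X ∈ U,
      ∃ E : Matrix (Fin n) (Fin n) ℝ, (∀ i j, |E i j| ≤ ε) ∧
        Matrix.diagonal a * X * γ.map (Int.cast : ℤ → ℝ) = (1 + E) * X := by
  classical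
  obtain ⟨-, -, -, E, hE, hE2⟩ := h
  set G : Matrix (Fin n) (Fin n) ℝ := γ.map (Int.cast : ℤ → ℝ) with hG
  set Φ : Matrix (Fin n) (Fin n) ℝ → Matrix (Fin n) (Fin n) ℝ := fun X =>
    Matrix.diagonal a * X * G * X.adjugate - X.det • 1 with hΦ
  have hΦc : Continuous Φ := by
    refine Continuous.sub ?_ ?_
    · exact ((continuous_const.matrix_mul continuous_id).matrix_mul
        continuous_const).matrix_mul (continuous_id.matrix_adjugate)
    · exact (continuous_id.matrix_det).smul continuous_const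
  refine ⟨{X | X.det ≠ 0 ∧ ∀ i j, |Φ X i j| < ε * |X.det|}, ?_, ?_, ?_⟩
  · have h1 : {X : Matrix (Fin n) (Fin n) ℝ | X.det ≠ 0 ∧ ∀ i j, |Φ X i j| < ε * |X.det|} =
        {X | X.det ≠ 0} ∩ ⋂ i, ⋂ j, {X | |Φ X i j| < ε * |X.det|} := by
      ext X
      simp
    rw [h1]
    refine IsOpen.inter (isOpen_ne_fun continuous_id.matrix_det continuous_const) ?_
    refine isOpen_iInter_of_finite fun i => isOpen_iInter_of_finite fun j => ?_
    refine isOpen_lt ?_ ?_
    · exact continuous_abs.comp ((continuous_apply_apply i j).comp hΦc)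
    · exact continuous_const.mul (continuous_abs.comp continuous_id.matrix_det)
  · refine ⟨hL', fun i j => ?_⟩
    have h1 : Φ L' = L'.det • E := by
      simp only [hΦ]
      rw [hE2, Matrix.mul_assoc, Matrix.mul_adjugate, Matrix.mul_smul, Matrix.mul_one,
        smul_add, add_sub_cancel_left]
    rw [h1, Matrix.smul_apply, smul_eq_mul, abs_mul, mul_comm]
    exact mul_lt_mul_of_pos_right (hE i j) (abs_pos.2 hL')
  · rintro X ⟨hX, hX2⟩
    have hXu : IsUnit X.det := isUnit_iff_ne_zero.2 hX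
    refine ⟨X.det⁻¹ • Φ X, fun i j => ?_, ?_⟩
    · rw [Matrix.smul_apply, smul_eq_mul, abs_mul, abs_inv, inv_mul_le_iff₀ (abs_pos.2 hX),
        mul_comm]
      exact (hX2 i j).le
    · simp only [hΦ]
      rw [smul_sub, smul_smul, inv_mul_cancel₀ hX, one_smul, add_sub_cancel, Matrix.smul_mul,
        Matrix.mul_assoc _ X.adjugate, Matrix.adjugate_mul, Matrix.mul_smul, Matrix.mul_one,
        smul_smul, inv_mul_cancel₀ hX, one_smul]

lemma zR_inv {η : Matrix (Fin n) (Fin n) ℤ} (hη : IsUnit η.det) :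
    H715R2.zR η * H715R2.zR η⁻¹ = 1 := by
  rw [← H715R2.zR_mul, Matrix.mul_nonsing_inv _ hη, H715R2.zR_one]

/-- two near returns of a recurrent limit give near returns of systems in the balls -/
lemma pair {L : ℕ → Matrix (Fin n) (Fin n) ℝ} {L' : Matrix (Fin n) (Fin n) ℝ}
    (hL' : L'.det ≠ 0) {b : ℕ → Fin n → ℝ}
    (hlim : ∀ U : Set (Matrix (Fin n) (Fin n) ℝ), IsOpen U → L' ∈ U → ∀ m₀ : ℕ, ∃ m ≥ m₀,
        ∃ (c : Fin n → ℝ) (η : Matrix (Fin n) (Fin n) ℤ), c ∈ Ball (b m) m ∧ IsUnit η.det ∧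
          Matrix.diagonal c * L m * H715R2.zR η ∈ U)
    {α : Fin n → ℝ} {ε δ T : ℝ} {a a' : Fin n → ℝ} {γ γ' : Matrix (Fin n) (Fin n) ℤ} {s s' : ℝ}
    (h : H202.EF.Nr L' ε a γ) (hs : T ≤ s) (hs2 : ∀ i, |Real.log (a i) - s * α i| ≤ δ * s)
    (h' : H202.EF.Nr L' ε a' γ') (hs' : T ≤ s')
    (hs2' : ∀ i, |Real.log (a' i) - s' * α i| ≤ δ * s') :
    ∃ (m : ℕ) (c : Fin n → ℝ) (η : Matrix (Fin n) (Fin n) ℤ), c ∈ Ball (b m) m ∧ IsUnit η.det ∧
      η * γ * η⁻¹ ∈ Returns (Matrix.diagonal c * L m) α ε δ T m ∧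
      η * γ' * η⁻¹ ∈ Returns (Matrix.diagonal c * L m) α ε δ T m := by
  classical
  obtain ⟨U, hU, hLU, hU2⟩ := near_open hL' h
  obtain ⟨U', hU', hLU', hU2'⟩ := near_open hL' h'
  set B : ℝ := ∑ i, (|Real.log (a i)| + |Real.log (a' i)|) with hB
  obtain ⟨m, hm, c, η, hc, hη, hX⟩ := hlim (U ∩ U') (hU.inter hU') ⟨hLU, hLU'⟩ ⌈B⌉₊
  have hBm : B ≤ m := (Nat.le_ceil _).trans (by exact_mod_cast hm)
  have hle : ∀ i, |Real.log (a i)| + |Real.log (a' i)| ≤ B := fun i =>
    Finset.single_le_sum (f := fun i => |Real.log (a i)| + |Real.log (a' i)|)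
      (fun i _ => add_nonneg (abs_nonneg _) (abs_nonneg _)) (Finset.mem_univ i)
  have key : ∀ (a : Fin n → ℝ) (γ : Matrix (Fin n) (Fin n) ℤ) (s : ℝ), H202.EF.Nr L' ε a γ →
      T ≤ s → (∀ i, |Real.log (a i) - s * α i| ≤ δ * s) → (∀ i, |Real.log (a i)| ≤ B) →
      (∃ E : Matrix (Fin n) (Fin n) ℝ, (∀ i j, |E i j| ≤ ε) ∧
        Matrix.diagonal a * (Matrix.diagonal c * L m * H715R2.zR η) * γ.map (Int.cast : ℤ → ℝ) =
          (1 + E) * (Matrix.diagonal c * L m * H715R2.zR η)) →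
      η * γ * η⁻¹ ∈ Returns (Matrix.diagonal c * L m) α ε δ T m := by
    rintro a γ s h hs hs2 haB ⟨E, hE, hE2⟩
    refine ⟨?_, a, s, E, ⟨⟨h.1, h.2.1⟩, fun i => ?_⟩, hs, hs2, hE, ?_⟩
    · rw [Matrix.det_mul, Matrix.det_mul, h.2.2.1, mul_one, ← Matrix.det_mul,
        Matrix.mul_nonsing_inv _ hη, Matrix.det_one]
    · simp only [Pi.one_apply, Real.log_one, sub_zero]
      exact (haB i).trans hBm
    · have h1 : (η * γ * η⁻¹).map (Int.cast : ℤ → ℝ) =
          H715R2.zR η * γ.map (Int.cast : ℤ → ℝ) * H715R2.zR η⁻¹ := by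
        have h2 := H715R2.zR_mul (η * γ) η⁻¹
        rw [H715R2.zR_mul η γ] at h2
        exact h2
      rw [h1]
      calc Matrix.diagonal a * (Matrix.diagonal c * L m) *
            (H715R2.zR η * γ.map (Int.cast : ℤ → ℝ) * H715R2.zR η⁻¹) =
            (Matrix.diagonal a * (Matrix.diagonal c * L m * H715R2.zR η) *
              γ.map (Int.cast : ℤ → ℝ)) * H715R2.zR η⁻¹ := by simp only [Matrix.mul_assoc]
        _ = (1 + E) * (Matrix.diagonal c * L m) * (H715R2.zR η * H715R2.zR η⁻¹) := by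
            rw [hE2]
            simp only [Matrix.mul_assoc]
        _ = (1 + E) * (Matrix.diagonal c * L m) := by rw [zR_inv hη, Matrix.mul_one]
  refine ⟨m, c, η, hc, hη, key a γ s h hs hs2 (fun i => ?_) (hU2 _ hX.1),
    key a' γ' s' h' hs' hs2' (fun i => ?_) (hU2' _ hX.2)⟩
  · have := hle i
    have := abs_nonneg (Real.log (a' i))
    linarith
  · have := hle i
    have := abs_nonneg (Real.log (a i))
    linarith

lemma charpoly_conj {η γ : Matrix (Fin n) (Fin n) ℤ} (hη : IsUnit η.det) :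
    (η * γ * η⁻¹).charpoly = γ.charpoly := by
  rw [Matrix.charpoly_mul_comm, ← Matrix.mul_assoc, Matrix.nonsing_inv_mul _ hη, Matrix.one_mul]

lemma limits_of_closure {L L' : Matrix (Fin n) (Fin n) ℝ} (h : L' ∈ closure (H715R2.Orb L)) :
    L' ∈ NearReturns.Limits L := by
  rw [NearReturns.limits_eq]
  exact h

/-- isolation of the systems with Oppenheim's conclusion -/
lemma iso (hn : 3 ≤ n) {V ν : ℝ} (hV : 0 < V) (hν : 0 < ν)
    {L : ℕ → Matrix (Fin n) (Fin n) ℝ} (hL : ∀ m, |(L m).det| = V)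
    (hF : ∀ m, H715R2.HasNu (L m) ν) {b : ℕ → Fin n → ℝ} (hbD : ∀ m, b m ∈ Diag n)
    {L₁ : Matrix (Fin n) (Fin n) ℝ} (h1 : |L₁.det| = V) (h2 : H715R2.HasNu L₁ ν)
    (hU : ∀ U : Set (Matrix (Fin n) (Fin n) ℝ), IsOpen U → L₁ ∈ U →
        ∃ (m : ℕ) (η : Matrix (Fin n) (Fin n) ℤ), IsUnit η.det ∧
          Matrix.diagonal (b m) * L m * H715R2.zR η ∈ U) (hM : HasMatrix L₁) :
    ∃ m, HasMatrix (L m) := by
  classical
  have hdet₁ : L₁.det ≠ 0 := by
    rw [← abs_ne_zero, h1]
    exact hV.ne'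
  have hP : H715R2.PropInt L₁ :=
    (MP_edeaa2_an.EigenvalueFields.propInt_iff hn hdet₁ ⟨ν, hν, h2⟩).2 hM
  obtain ⟨U, hUo, hLU, hsub⟩ := mem_nhdsWithin.1 (X87.CSD.isolated hn hV hν ⟨h1, h2⟩ hP)
  obtain ⟨m, η, hη, hX⟩ := hU U hUo hLU
  set X : Matrix (Fin n) (Fin n) ℝ := Matrix.diagonal (b m) * L m * H715R2.zR η with hXdef
  have hXorb : X ∈ closure (H715R2.Orb (L m)) :=
    subset_closure ⟨b m, η, (hbD m).1, (hbD m).2, hη, rfl⟩
  obtain ⟨a, ha0, ha1, hXa⟩ := hsub ⟨hX, (H715R2.abs_det_closure hXorb).trans (hL m),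
    H715R2.hasNu_closure (hF m) hXorb⟩
  have hX1 : X ∈ closure (H715R2.Orb L₁) :=
    subset_closure ⟨a, 1, ha0, ha1, by simp, by rw [hXa]; simp [H715R2.zR_one]⟩
  have hη' : IsUnit (η⁻¹).det := by
    rw [Matrix.det_nonsing_inv]
    exact hη.ringInverse
  have hLX : L m ∈ closure (H715R2.Orb X) := by
    refine subset_closure ⟨fun i => (b m i)⁻¹, η⁻¹, fun i => inv_pos.2 ((hbD m).1 i), ?_, hη', ?_⟩
    · rw [Finset.prod_inv_distrib, (hbD m).2, inv_one]
    · have h3 : Matrix.diagonal (fun i => (b m i)⁻¹) * Matrix.diagonal (b m) = 1 := by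
        rw [Matrix.diagonal_mul_diagonal]
        have h4 : (fun i => (b m i)⁻¹ * b m i) = fun _ => (1 : ℝ) :=
          funext fun i => inv_mul_cancel₀ ((hbD m).1 i).ne'
        rw [h4, Matrix.diagonal_one]
      calc L m = (Matrix.diagonal (fun i => (b m i)⁻¹) * Matrix.diagonal (b m)) * L m *
            (H715R2.zR η * H715R2.zR η⁻¹) := by
              rw [h3, zR_inv hη, Matrix.one_mul, Matrix.mul_one]
        _ = _ := by
              rw [hXdef]
              simp only [Matrix.mul_assoc]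
  have hL1 : L m ∈ closure (H715R2.Orb L₁) := TH314.CSD.orb_closure_trans hX1 hLX
  have hP' : H715R2.PropInt (L m) := Y327.propInt_closure hn hdet₁ hν h2 hP hL1
  have hdet : (L m).det ≠ 0 := by
    rw [← abs_ne_zero, hL m]
    exact hV.ne'
  exact ⟨m, (MP_edeaa2_an.EigenvalueFields.propInt_iff hn hdet ⟨ν, hν, hF m⟩).1 hP'⟩

/-- noncommuting returns in one ball -/
lemma part_comm (hn : 3 ≤ n) {V ν : ℝ} (hV : 0 < V) (hν : 0 < ν) {α : Fin n → ℝ} {ε δ T : ℝ}
    (hα : ∑ i, α i = 0) (hε : 0 < ε) (hδ : 0 < δ) :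
    ∃ m : ℕ, ∀ L : Matrix (Fin n) (Fin n) ℝ, |L.det| = V → H715R2.HasNu L ν → ¬ HasMatrix L →
      ∀ b ∈ Diag n, ∃ c ∈ Ball b m, ∃ γ ∈ Returns (Matrix.diagonal c * L) α ε δ T m,
        ∃ γ' ∈ Returns (Matrix.diagonal c * L) α ε δ T m, γ * γ' ≠ γ' * γ := by
  by_contra hcon
  push Not at hcon
  choose L hL hF hno b hbD hb2 using hcon
  obtain ⟨L₁, h1, h2, hU, L', hL', hrec, hlim⟩ := exists_limit (by omega) hV hν hL hF hbD
  have hdet₁ : L₁.det ≠ 0 := by
    rw [← abs_ne_zero, h1]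
    exact hV.ne'
  have hLim := limits_of_closure hL'
  have hdet := NearReturns.det_limit hdet₁ hLim
  obtain ⟨ε', hε', hnr⟩ := MP_edeaa2_an.EigenvalueFields.nr_of_close hdet hε
  have hM : HasMatrix L₁ := by
    refine NearReturns.part_two hn hdet₁ ⟨ν, hν, h2⟩ hLim ((NearReturns.recurrent_iff L').2 hrec)
      hα hε' hδ (T := T) ?_
    rintro γ ⟨hγ, a, s, ha, ha1, hs, hs2, hcl⟩ γ' ⟨hγ', a', s', ha', ha1', hs', hs2', hcl'⟩
    obtain ⟨m, c, η, hc, hη, h1, h2⟩ := pair hdet hlim (hnr a γ ha ha1 hγ hcl) hs hs2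
      (hnr a' γ' ha' ha1' hγ' hcl') hs' hs2'
    have h3 := hb2 m c hc _ h1 _ h2
    have hηη : η⁻¹ * η = 1 := Matrix.nonsing_inv_mul _ hη
    have h4 : ∀ x y : Matrix (Fin n) (Fin n) ℤ,
        η⁻¹ * (η * x * η⁻¹ * (η * y * η⁻¹)) * η = x * y := by
      intro x y
      calc η⁻¹ * (η * x * η⁻¹ * (η * y * η⁻¹)) * η =
            (η⁻¹ * η) * x * (η⁻¹ * η) * y * (η⁻¹ * η) := by simp only [Matrix.mul_assoc]
        _ = x * y := by rw [hηη, Matrix.one_mul, Matrix.mul_one, Matrix.mul_one]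
    rw [← h4 γ γ', h3, h4]
  obtain ⟨m, hm⟩ := iso hn hV hν hL hF hbD h1 h2 hU hM
  exact hno m hm

/-- fields of the returns in one ball -/
lemma part_field (hn : 3 ≤ n) {V ν : ℝ} (hV : 0 < V) (hν : 0 < ν) {α : Fin n → ℝ} {ε δ T : ℝ}
    (hα : ∑ i, α i = 0) (hε : 0 < ε) (hδ : 0 < δ) {K : IntermediateField ℚ ℝ}
    (hK : FiniteDimensional ℚ K) :
    ∃ m : ℕ, ∀ L : Matrix (Fin n) (Fin n) ℝ, |L.det| = V → H715R2.HasNu L ν → ¬ HasMatrix L →
      ∀ b ∈ Diag n, ∃ c ∈ Ball b m, ∃ γ ∈ Returns (Matrix.diagonal c * L) α ε δ T m,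
        IrrRS γ ∧ ∀ x ∈ K, ¬ Eigenvalue γ ((x : ℝ) : ℂ) := by
  by_contra hcon
  push Not at hcon
  choose L hL hF hno b hbD hb2 using hcon
  obtain ⟨L₁, h1, h2, hU, L', hL', hrec, hlim⟩ := exists_limit (by omega) hV hν hL hF hbD
  have hdet₁ : L₁.det ≠ 0 := by
    rw [← abs_ne_zero, h1]
    exact hV.ne'
  have hLim := limits_of_closure hL'
  have hdet := NearReturns.det_limit hdet₁ hLim
  obtain ⟨ε', hε', hnr⟩ := MP_edeaa2_an.EigenvalueFields.nr_of_close hdet hε
  have hM : HasMatrix L₁ := by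
    by_contra hno₁
    obtain ⟨γ, ⟨hγ, a, s, ha, ha1, hs, hs2, hcl⟩, hirr, hx⟩ :=
      MP_edeaa2_an.EigenvalueFields.exists_good_return hn hdet₁ ⟨ν, hν, h2⟩ hno₁ (L' := L') hLim
        ((NearReturns.recurrent_iff L').2 hrec) hα (ε := ε') (δ := δ) (T := T) hε' hδ K hK
    have hN := hnr a γ ha ha1 hγ hcl
    obtain ⟨m, c, η, hc, hη, h1, -⟩ := pair hdet hlim hN hs hs2 hN hs hs2
    have hcp := charpoly_conj (γ := γ) hη
    obtain ⟨x, hxK, hx2⟩ := hb2 m c hc _ h1 (by
      unfold IrrRS Eigenvalue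
      rw [hcp]
      exact hirr)
    refine hx x hxK ?_
    unfold Eigenvalue at hx2
    rw [hcp] at hx2
    exact hx2
  obtain ⟨m, hm⟩ := iso hn hV hν hL hF hbD h1 h2 hU hM
  exact hno m hm

lemma ball_mono {b : Fin n → ℝ} {R R' : ℝ} (h : R ≤ R') : Ball b R ⊆ Ball b R' :=
  fun _ hc => ⟨hc.1, fun i => (hc.2 i).trans h⟩

lemma returns_mono {X : Matrix (Fin n) (Fin n) ℝ} {α : Fin n → ℝ} {ε δ T R R' : ℝ}
    (h : R ≤ R') : Returns X α ε δ T R ⊆ Returns X α ε δ T R' := by
  rintro γ ⟨hγ, a, s, E, ha, h1⟩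
  exact ⟨hγ, a, s, E, ball_mono h ha, h1⟩

/-- the matrices which commute with an invariant matrix -/
lemma diag_of_comm {L : Matrix (Fin n) (Fin n) ℝ} (hL : L.det ≠ 0) (h : HasMatrix L) :
    ∃ (A : Matrix (Fin n) (Fin n) ℤ) (lam : Fin n → ℝ) (K : IntermediateField ℚ ℝ),
      FiniteDimensional ℚ K ∧ L * H715R2.zR A = Matrix.diagonal lam * L ∧
      ∀ γ : Matrix (Fin n) (Fin n) ℤ, A * γ = γ * A →
        ∃ c : Fin n → ℝ, (∀ i, c i ∈ K) ∧
          L * γ.map (Int.cast : ℤ → ℝ) = Matrix.diagonal c * L := by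
  classical
  obtain ⟨A, -, hA2, -, hA4⟩ := h
  obtain ⟨lam, hlam, hAL⟩ := Y327.eig_of_opp hL hA2 hA4
  have hLu : IsUnit L.det := isUnit_iff_ne_zero.2 hL
  have hLL : L * L⁻¹ = 1 := Matrix.mul_nonsing_inv _ hLu
  -- the eigenvalues are integral
  have hdet : ∀ i, (A.map (Int.cast : ℤ → ℝ) - lam i • 1).det = 0 := by
    intro i
    have h1 : L * (A.map (Int.cast : ℤ → ℝ) - lam i • 1) =
        Matrix.diagonal (fun j => lam j - lam i) * L := by
      have h2 : L * A.map (Int.cast : ℤ → ℝ) = Matrix.diagonal lam * L := hAL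
      rw [Matrix.mul_sub, h2, Matrix.mul_smul, Matrix.mul_one]
      ext j k
      rw [Matrix.sub_apply, Matrix.smul_apply, Matrix.diagonal_mul, Matrix.diagonal_mul,
        smul_eq_mul]
      ring
    have h3 := congrArg Matrix.det h1
    rw [Matrix.det_mul, Matrix.det_mul, Matrix.det_diagonal,
      Finset.prod_eq_zero (Finset.mem_univ i) (sub_self _), zero_mul] at h3
    exact (mul_eq_zero.1 h3).resolve_left hL
  have hint : ∀ i, IsIntegral ℚ (lam i) := fun i => (H202.EF.eigen_integral (hdet i)).tower_top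
  set K : IntermediateField ℚ ℝ := IntermediateField.adjoin ℚ (Set.range lam) with hK
  have hfin : FiniteDimensional ℚ K := by
    have : Finite (Set.range lam) := Set.finite_range lam
    exact IntermediateField.finiteDimensional_adjoin (fun x hx => by
      obtain ⟨i, rfl⟩ := hx
      exact hint i)
  have hlamK : ∀ i, lam i ∈ K := fun i =>
    IntermediateField.subset_adjoin ℚ _ ⟨i, rfl⟩
  -- the rows of `L` are proportional to vectors over `K`
  have hrow : ∀ i, ∃ (v : Fin n → K) (w : ℝ), v ≠ 0 ∧ ∀ j, ((v j : K) : ℝ) = w * L i j := by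
    intro i
    have h1 := (H202.EF.conj_eigen (K := K) (A := ℝ) (B := ℝ) (algebraMap K ℝ)
      (algebraMap K ℝ).injective (algebraMap K ℝ) (γ := A) (x := ⟨lam i, hlamK i⟩)
      (hdet i)).1
    obtain ⟨v, hv, hv2⟩ := Matrix.exists_vecMul_eq_zero_iff.2 h1
    set vR : Fin n → ℝ := fun j => ((v j : K) : ℝ) with hvR
    have h2 : Matrix.vecMul vR (A.map (Int.cast : ℤ → ℝ)) = lam i • vR := by
      funext j
      have h3 := congrFun hv2 j
      rw [Matrix.vecMul_sub, Pi.sub_apply, Matrix.vecMul_smul, Matrix.vecMul_one, Pi.smul_apply,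
        smul_eq_mul, Pi.zero_apply, sub_eq_zero] at h3
      have h4 := congrArg (fun x : K => (x : ℝ)) h3
      simp only [Matrix.vecMul, dotProduct, Matrix.map_apply] at h4
      rw [Pi.smul_apply, smul_eq_mul]
      simp only [Matrix.vecMul, dotProduct, Matrix.map_apply, hvR]
      push_cast at h4
      exact h4
    obtain ⟨w, hw⟩ : ∃ w : Fin n → ℝ, w = Matrix.vecMul vR L⁻¹ := ⟨_, rfl⟩
    have h3 : Matrix.vecMul w L = vR := by
      rw [hw, Matrix.vecMul_vecMul, Matrix.nonsing_inv_mul _ hLu, Matrix.vecMul_one]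
    have h4 : ∀ j, j ≠ i → w j = 0 := by
      intro j hj
      have h5 : Matrix.vecMul w (Matrix.diagonal lam * L) = lam i • Matrix.vecMul w L := by
        have h6 : L * A.map (Int.cast : ℤ → ℝ) = Matrix.diagonal lam * L := hAL
        rw [← h6, ← Matrix.vecMul_vecMul, h3, h2]
      have h7 : Matrix.vecMul w (Matrix.diagonal lam) = lam i • w := by
        have h8 : Matrix.vecMul (Matrix.vecMul w (Matrix.diagonal lam * L)) L⁻¹ =
            Matrix.vecMul (lam i • Matrix.vecMul w L) L⁻¹ := by rw [h5]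
        rw [Matrix.vecMul_vecMul, Matrix.mul_assoc, hLL, Matrix.mul_one, Matrix.smul_vecMul,
          Matrix.vecMul_vecMul, hLL, Matrix.vecMul_one] at h8
        exact h8
      have h9 := congrFun h7 j
      rw [Matrix.vecMul_diagonal, Pi.smul_apply, smul_eq_mul] at h9
      have h10 : (lam j - lam i) * w j = 0 := by linarith
      exact (mul_eq_zero.1 h10).resolve_left (sub_ne_zero.2 fun h => hj (hlam h))
    refine ⟨v, w i, hv, fun j => ?_⟩
    have h5 := congrFun h3 j
    rw [Matrix.vecMul, dotProduct, Finset.sum_eq_single i] at h5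
    · exact h5.symm
    · intro k _ hk
      rw [h4 k hk, zero_mul]
    · intro h
      exact absurd (Finset.mem_univ _) h
  refine ⟨A, lam, K, hfin, hAL, ?_⟩
  intro γ hcomm
  set G : Matrix (Fin n) (Fin n) ℝ := γ.map (Int.cast : ℤ → ℝ) with hG
  have h2 : H715R2.zR A * G = G * H715R2.zR A := by
    have h3 := congrArg H715R2.zR hcomm
    rw [H715R2.zR_mul, H715R2.zR_mul] at h3
    exact h3
  -- the matrix `L G L⁻¹` commutes with `diag(lam)`
  set X := L * G * L⁻¹ with hX
  have h3 : Matrix.diagonal lam * X = X * Matrix.diagonal lam := by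
    have e1 : L⁻¹ * L = 1 := Matrix.nonsing_inv_mul _ hLu
    have e2 : L * L⁻¹ = 1 := Matrix.mul_nonsing_inv _ hLu
    calc Matrix.diagonal lam * X = (Matrix.diagonal lam * L) * G * L⁻¹ := by
          rw [hX]
          simp only [Matrix.mul_assoc]
      _ = L * (H715R2.zR A * G) * L⁻¹ := by
          rw [← hAL]
          simp only [Matrix.mul_assoc]
      _ = L * G * (L⁻¹ * L) * H715R2.zR A * L⁻¹ := by
          rw [h2, e1, Matrix.mul_one]
          simp only [Matrix.mul_assoc]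
      _ = X * (L * H715R2.zR A) * L⁻¹ := by
          rw [hX]
          simp only [Matrix.mul_assoc]
      _ = X * Matrix.diagonal lam * (L * L⁻¹) := by
          rw [hAL]
          simp only [Matrix.mul_assoc]
      _ = X * Matrix.diagonal lam := by rw [e2, Matrix.mul_one]
  have h4 : X = Matrix.diagonal fun i => X i i := by
    ext i j
    by_cases hij : i = j
    · subst hij
      rw [Matrix.diagonal_apply_eq]
    · rw [Matrix.diagonal_apply_ne _ hij]
      have h5 := congrFun (congrFun h3 i) j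
      rw [Matrix.diagonal_mul, Matrix.mul_diagonal] at h5
      have h6 : (lam i - lam j) * X i j = 0 := by
        rw [sub_mul, h5]
        ring
      exact (mul_eq_zero.1 h6).resolve_left (sub_ne_zero.2 fun h => hij (hlam h))
  have h5 : L * G = Matrix.diagonal (fun i => X i i) * L := by
    rw [← h4, hX, Matrix.mul_assoc, Matrix.nonsing_inv_mul _ hLu, Matrix.mul_one]
  refine ⟨fun i => X i i, fun i => ?_, h5⟩
  obtain ⟨v, w, hv, hvw⟩ := hrow i
  obtain ⟨j, hj⟩ := Function.ne_iff.1 hv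
  have hj' : ((v j : K) : ℝ) ≠ 0 := by
    intro h
    exact hj (by exact_mod_cast h)
  have h6 : X i i * ((v j : K) : ℝ) = ∑ k, ((v k : K) : ℝ) * (γ k j : ℝ) := by
    have h7 := congrFun (congrFun h5 i) j
    rw [Matrix.diagonal_mul, Matrix.mul_apply] at h7
    rw [hvw j]
    calc X i i * (w * L i j) = w * (X i i * L i j) := by ring
      _ = w * ∑ k, L i k * G k j := by rw [h7]
      _ = ∑ k, ((v k : K) : ℝ) * (γ k j : ℝ) := by
          rw [Finset.mul_sum]
          refine Finset.sum_congr rfl fun k _ => ?_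
          rw [hvw k]
          have : G k j = (γ k j : ℝ) := rfl
          rw [this]
          ring
  have h7 : X i i = (∑ k, ((v k : K) : ℝ) * (γ k j : ℝ)) / ((v j : K) : ℝ) := by
    rw [← h6, mul_div_cancel_right₀ _ hj']
  show X i i ∈ K
  rw [h7]
  refine K.div_mem (K.sum_mem fun k _ => K.mul_mem (v k).2 ?_) (v j).2
  exact K.intCast_mem _

/-- the near returns of all systems in the orbit are diagonal -/
lemma uniform (hn : 3 ≤ n) {L : Matrix (Fin n) (Fin n) ℝ} (hL : L.det ≠ 0)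
    (hb : BoundedAway L) (h : HasMatrix L) :
    ∃ (ε : ℝ) (K : IntermediateField ℚ ℝ), 0 < ε ∧ FiniteDimensional ℚ K ∧
      ∀ c ∈ Diag n, ∀ (α : Fin n → ℝ) (δ T R : ℝ),
        ∀ γ ∈ Returns (Matrix.diagonal c * L) α ε δ T R,
        ∃ d : Fin n → ℝ, (∀ i, d i ∈ K) ∧
          L * γ.map (Int.cast : ℤ → ℝ) = Matrix.diagonal d * L := by
  classical
  obtain ⟨ν, hν, hF⟩ := hb
  have hnu : H715R2.HasNu L ν := hF
  obtain ⟨A, lam, K, hK, hAL, hcomm⟩ := diag_of_comm hL h
  obtain ⟨R₀, hR₀⟩ := H715R2.exists_bound (d := n) (by omega) |L.det| ν (abs_pos.2 hL) hν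
  set Λ : ℝ := ∑ i, |lam i| with hΛ
  have hΛ0 : 0 ≤ Λ := Finset.sum_nonneg fun _ _ => abs_nonneg _
  have hlamΛ : ∀ i, |lam i| ≤ Λ := fun i =>
    Finset.single_le_sum (f := fun i => |lam i|) (fun _ _ => abs_nonneg _) (Finset.mem_univ i)
  have hn0 : (0 : ℝ) < n := by
    have : 0 < n := by omega
    exact_mod_cast this
  set τ : ℝ := min 1 (ν / 2) with hτ
  have hτ0 : 0 < τ := lt_min one_pos (by linarith)
  set C : ℝ := n * (4 * Λ) * |R₀| with hC
  have hC0 : 0 ≤ C := by positivity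
  set ε : ℝ := min (1 / (2 * n)) (τ / (C + 1)) with hε
  have hε0 : 0 < ε := lt_min (by positivity) (by positivity)
  have hε1 : n * ε ≤ 1 / 2 := by
    have h1 : ε ≤ 1 / (2 * n) := min_le_left _ _
    rw [le_div_iff₀ (by positivity)] at h1
    linarith
  have hε2 : C * ε < τ := by
    have h1 : ε ≤ τ / (C + 1) := min_le_right _ _
    rw [le_div_iff₀ (by positivity)] at h1
    nlinarith
  refine ⟨ε, K, hε0, hK, ?_⟩
  rintro c hc α δ T R γ ⟨hγ, a, s, E, -, -, -, hE, hE2⟩
  refine hcomm γ ?_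
  set Y : Matrix (Fin n) (Fin n) ℝ := Matrix.diagonal c * L with hY
  have hYorb : Y ∈ closure (H715R2.Orb L) :=
    subset_closure ⟨c, 1, hc.1, hc.2, by simp, by simp [H715R2.zR_one, hY]⟩
  have hYdet : Y.det ≠ 0 := by
    rw [← abs_ne_zero, H715R2.abs_det_closure hYorb, abs_ne_zero]
    exact hL
  have hYu : IsUnit Y.det := isUnit_iff_ne_zero.2 hYdet
  obtain ⟨η, hη, hηR⟩ := hR₀ Y (H715R2.abs_det_closure hYorb) (H715R2.hasNu_closure hnu hYorb)
  set X : Matrix (Fin n) (Fin n) ℝ := Y * H715R2.zR η with hX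
  have hXorb : X ∈ closure (H715R2.Orb L) :=
    subset_closure ⟨c, η, hc.1, hc.2, hη, rfl⟩
  have hXF : ∀ p : Fin n → ℤ, p ≠ 0 → ν ≤ |F X p| := H715R2.hasNu_closure hnu hXorb
  have hγu : IsUnit γ.det := by rw [hγ]; exact isUnit_one
  have hYA : Y * H715R2.zR A = Matrix.diagonal lam * Y := by
    rw [hY, Matrix.mul_assoc, hAL, ← Matrix.mul_assoc, ← Matrix.mul_assoc,
      Matrix.diagonal_mul_diagonal, Matrix.diagonal_mul_diagonal]
    simp only [mul_comm]
  set B : Matrix (Fin n) (Fin n) ℤ := γ⁻¹ * A * γ - A with hB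
  set Z : Matrix (Fin n) (Fin n) ℝ := Y * H715R2.zR B * Y⁻¹ with hZ
  have hZY : Z * Y = Y * H715R2.zR B := by
    rw [hZ, Matrix.mul_assoc, Matrix.nonsing_inv_mul _ hYu, Matrix.mul_one]
  set D : Matrix (Fin n) (Fin n) ℝ := Matrix.diagonal lam with hD
  have hzsub : ∀ x y : Matrix (Fin n) (Fin n) ℤ,
      H715R2.zR (x - y) = H715R2.zR x - H715R2.zR y := by
    intro x y
    ext i j
    simp [H715R2.zR]
  have hgB : H715R2.zR γ * H715R2.zR B = H715R2.zR A * H715R2.zR γ - H715R2.zR γ * H715R2.zR A := by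
    rw [← H715R2.zR_mul, ← H715R2.zR_mul, ← H715R2.zR_mul, ← hzsub]
    congr 1
    rw [hB, Matrix.mul_sub, ← Matrix.mul_assoc, ← Matrix.mul_assoc,
      Matrix.mul_nonsing_inv _ hγu, Matrix.one_mul]
  have hE3 : Matrix.diagonal a * Y * H715R2.zR γ = (1 + E) * Y := hE2
  have hdd : Matrix.diagonal a * D = D * Matrix.diagonal a := by
    rw [hD, Matrix.diagonal_mul_diagonal, Matrix.diagonal_mul_diagonal]
    simp only [mul_comm]
  have hcore : (1 + E) * Z = D * E - E * D := by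
    have h1 : (1 + E) * Z * Y = (D * E - E * D) * Y := by
      calc (1 + E) * Z * Y = (1 + E) * (Z * Y) := Matrix.mul_assoc _ _ _
        _ = (1 + E) * Y * H715R2.zR B := by rw [hZY, ← Matrix.mul_assoc]
        _ = Matrix.diagonal a * Y * (H715R2.zR γ * H715R2.zR B) := by
            rw [← hE3]
            simp only [Matrix.mul_assoc]
        _ = Matrix.diagonal a * (Y * H715R2.zR A) * H715R2.zR γ -
              Matrix.diagonal a * Y * H715R2.zR γ * H715R2.zR A := by
            rw [hgB, Matrix.mul_sub]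
            simp only [Matrix.mul_assoc]
        _ = D * (Matrix.diagonal a * Y * H715R2.zR γ) - (1 + E) * (Y * H715R2.zR A) := by
            rw [hYA, hE3, ← hE3]
            congr 1
            · calc Matrix.diagonal a * (D * Y) * H715R2.zR γ =
                    (Matrix.diagonal a * D) * Y * H715R2.zR γ := by
                      simp only [Matrix.mul_assoc]
                _ = D * (Matrix.diagonal a * Y * H715R2.zR γ) := by
                      rw [hdd]
                      simp only [Matrix.mul_assoc]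
            · rw [hE3, Matrix.mul_assoc, hYA]
        _ = (D * E - E * D) * Y := by
            rw [hE3, hYA]
            simp only [Matrix.add_mul, Matrix.one_mul, Matrix.mul_add, Matrix.sub_mul,
              Matrix.mul_assoc]
            abel
    have h2 := congrArg (fun M => M * Y⁻¹) h1
    simp only [Matrix.mul_assoc, Matrix.mul_nonsing_inv _ hYu, Matrix.mul_one] at h2
    exact h2
  -- the bound of `Z`
  have hne : (Finset.univ : Finset (Fin n × Fin n)).Nonempty :=
    ⟨(⟨0, by omega⟩, ⟨0, by omega⟩), Finset.mem_univ _⟩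
  obtain ⟨⟨p, q⟩, -, hmax⟩ := Finset.exists_max_image Finset.univ
    (fun r : Fin n × Fin n => |Z r.1 r.2|) hne
  have hmax' : ∀ i j, |Z i j| ≤ |Z p q| := fun i j => hmax (i, j) (Finset.mem_univ _)
  have hZb : |Z p q| ≤ 4 * Λ * ε := by
    have h1 : Z p q = (lam p * E p q - E p q * lam q) - ∑ k, E p k * Z k q := by
      have h2 := congrFun (congrFun hcore p) q
      rw [Matrix.add_mul, Matrix.one_mul, Matrix.add_apply, Matrix.sub_apply, hD,
        Matrix.diagonal_mul, Matrix.mul_diagonal, Matrix.mul_apply] at h2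
      linarith
    have h2 : |∑ k, E p k * Z k q| ≤ n * (ε * |Z p q|) := by
      refine (Finset.abs_sum_le_sum_abs _ _).trans ?_
      refine (Finset.sum_le_sum fun k _ => show |E p k * Z k q| ≤ ε * |Z p q| by
        rw [abs_mul]
        exact mul_le_mul (hE p k) (hmax' k q) (abs_nonneg _) hε0.le).trans (le_of_eq ?_)
      rw [Finset.sum_const, Finset.card_univ, Fintype.card_fin, nsmul_eq_mul]
    have h3 : |lam p * E p q - E p q * lam q| ≤ 2 * Λ * ε := by
      refine (abs_sub _ _).trans ?_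
      rw [abs_mul, abs_mul]
      have h4 := mul_le_mul (hlamΛ p) (hE p q) (abs_nonneg _) hΛ0
      have h5 := mul_le_mul (hE p q) (hlamΛ q) (abs_nonneg _) hε0.le
      linarith
    have h4 : |Z p q| ≤ 2 * Λ * ε + n * (ε * |Z p q|) := by
      calc |Z p q| = |(lam p * E p q - E p q * lam q) - ∑ k, E p k * Z k q| := by rw [← h1]
        _ ≤ _ := (abs_sub _ _).trans (add_le_add h3 h2)
    have h5 : n * (ε * |Z p q|) ≤ 1 / 2 * |Z p q| := by
      have := mul_le_mul_of_nonneg_right hε1 (abs_nonneg (Z p q))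
      linarith
    linarith
  -- the integral matrix is zero
  set W : Matrix (Fin n) (Fin n) ℤ := η⁻¹ * B * η with hW
  have hXW : X * H715R2.zR W = Z * X := by
    have h1 : H715R2.zR η * H715R2.zR η⁻¹ = 1 := zR_inv hη
    calc X * H715R2.zR W = Y * (H715R2.zR η * H715R2.zR η⁻¹) * H715R2.zR B * H715R2.zR η := by
          rw [hX, hW, H715R2.zR_mul, H715R2.zR_mul]
          simp only [Matrix.mul_assoc]
      _ = Y * H715R2.zR B * H715R2.zR η := by rw [h1, Matrix.mul_one]
      _ = Z * X := by rw [← hZY, hX, Matrix.mul_assoc]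
  have hsmall : ∀ i j, |(X * H715R2.zR W) i j| ≤ τ := by
    intro i j
    rw [hXW, Matrix.mul_apply]
    refine (Finset.abs_sum_le_sum_abs _ _).trans ?_
    refine (Finset.sum_le_sum fun k _ => show |Z i k * X k j| ≤ 4 * Λ * ε * |R₀| by
      rw [abs_mul]
      exact mul_le_mul ((hmax' i k).trans hZb) ((hηR k j).trans (le_abs_self _)) (abs_nonneg _)
        (by positivity)).trans ?_
    rw [Finset.sum_const, Finset.card_univ, Fintype.card_fin, nsmul_eq_mul]
    have h1 : n * (4 * Λ * ε * |R₀|) = C * ε := by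
      rw [hC]
      ring
    rw [h1]
    exact hε2.le
  have hτn : τ ^ n < ν := by
    have h1 : τ ^ n ≤ τ := by
      have h2 : τ ^ n ≤ τ ^ 1 := pow_le_pow_of_le_one hτ0.le (min_le_left _ _) (by omega)
      rwa [pow_one] at h2
    have h2 : τ ≤ ν / 2 := min_le_right _ _
    linarith
  have hW0 : W = 0 := by
    ext k j
    by_contra hkj
    have h1 := hXF (fun k => W k j) (fun h0 => hkj (congrFun h0 k))
    have h2 : |F X fun k => W k j| ≤ τ ^ n := by
      unfold F
      rw [Finset.abs_prod]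
      calc ∏ i, |∑ k, X i k * (W k j : ℝ)| ≤ ∏ _i : Fin n, τ := by
            refine Finset.prod_le_prod (fun _ _ => abs_nonneg _) fun i _ => ?_
            have h3 := hsmall i j
            rw [Matrix.mul_apply] at h3
            exact h3
        _ = τ ^ n := by rw [Finset.prod_const, Finset.card_univ, Fintype.card_fin]
    linarith
  have hB0 : B = 0 := by
    have h1 : η * W * η⁻¹ = B := by
      calc η * W * η⁻¹ = (η * η⁻¹) * B * (η * η⁻¹) := by
            rw [hW]
            simp only [Matrix.mul_assoc]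
        _ = B := by rw [Matrix.mul_nonsing_inv _ hη, Matrix.one_mul, Matrix.mul_one]
    rw [← h1, hW0, Matrix.mul_zero, Matrix.zero_mul]
  have h1 : γ⁻¹ * A * γ = A := sub_eq_zero.1 hB0
  calc A * γ = (γ * γ⁻¹) * A * γ := by
        rw [Matrix.mul_nonsing_inv _ hγu, Matrix.one_mul]
    _ = γ * (γ⁻¹ * A * γ) := by simp only [Matrix.mul_assoc]
    _ = γ * A := by rw [h1]

/-- discriminants of the fields of the returns in one ball -/
lemma part_discr (hn : 3 ≤ n) {V ν : ℝ} (hV : 0 < V) (hν : 0 < ν) {α : Fin n → ℝ} {ε δ T : ℝ}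
    (hα : ∑ i, α i = 0) (hε : 0 < ε) (hδ : 0 < δ) (N : ℕ) :
    ∃ m : ℕ, ∀ L : Matrix (Fin n) (Fin n) ℝ, |L.det| = V → H715R2.HasNu L ν → ¬ HasMatrix L →
      ∀ b ∈ Diag n, ∃ c ∈ Ball b m, ∃ γ ∈ Returns (Matrix.diagonal c * L) α ε δ T m,
        IrrRS γ ∧ ∃ x : ℝ, Eigenvalue γ (x : ℂ) ∧
          ∃ _ : NumberField (IntermediateField.adjoin ℚ {x}),
            N < |NumberField.discr (IntermediateField.adjoin ℚ {x})| := by
  obtain ⟨K, hK, hK2⟩ := MP_edeaa2_an.EigenvalueFields.exists_field_discr N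
  obtain ⟨m, hm⟩ := part_field (T := T) hn hV hν hα hε hδ hK
  refine ⟨m, fun L hL hF hno b hb => ?_⟩
  obtain ⟨c, hc, γ, hγ, hγ2, hγ3⟩ := hm L hL hF hno b hb
  obtain ⟨x, hx⟩ := MP_edeaa2_an.EigenvalueFields.exists_real hn hγ2.2
  have hfd : FiniteDimensional ℚ (IntermediateField.adjoin ℚ {x} : IntermediateField ℚ ℝ) := by
    refine IntermediateField.finiteDimensional_adjoin fun y hy => ?_
    rw [Set.mem_singleton_iff.1 hy]
    exact (H202.EF.eigen_integral
      ((MP_edeaa2_an.EigenvalueFields.det_iff x).2 hx)).tower_top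
  have hnf : NumberField (IntermediateField.adjoin ℚ {x} : IntermediateField ℚ ℝ) :=
    { to_charZero := inferInstance, to_finiteDimensional := hfd }
  refine ⟨c, hc, γ, hγ, hγ2, x, hx, hnf, ?_⟩
  by_contra hcon
  push Not at hcon
  exact hγ3 x (hK2 _ hnf hcon (IntermediateField.subset_adjoin ℚ _ (Set.mem_singleton x))) hx

theorem result (n : ℕ) (hn : 3 ≤ n) :
    -- 1. one ball of a radius which does not depend on the system decides
    (∀ V ν : ℝ, 0 < V → 0 < ν → ∀ (α : Fin n → ℝ) (ε δ T : ℝ), ∑ i, α i = 0 → 0 < ε → 0 < δ →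
      ∀ (K : IntermediateField ℚ ℝ) (N : ℕ), FiniteDimensional ℚ K →
        ∃ R : ℝ, ∀ L : Matrix (Fin n) (Fin n) ℝ, |L.det| = V →
          (∀ p : Fin n → ℤ, p ≠ 0 → ν ≤ |F L p|) → ¬ HasMatrix L → ∀ b ∈ Diag n,
            (∃ c ∈ Ball b R, ∃ γ ∈ Returns (Matrix.diagonal c * L) α ε δ T R,
              ∃ γ' ∈ Returns (Matrix.diagonal c * L) α ε δ T R, γ * γ' ≠ γ' * γ) ∧
            (∃ c ∈ Ball b R, ∃ γ ∈ Returns (Matrix.diagonal c * L) α ε δ T R,
              IrrRS γ ∧ ∀ x ∈ K, ¬ Eigenvalue γ ((x : ℝ) : ℂ)) ∧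
            ∃ c ∈ Ball b R, ∃ γ ∈ Returns (Matrix.diagonal c * L) α ε δ T R,
              IrrRS γ ∧ ∃ x : ℝ, Eigenvalue γ (x : ℂ) ∧
                ∃ _ : NumberField (IntermediateField.adjoin ℚ {x}),
                  N < |NumberField.discr (IntermediateField.adjoin ℚ {x})|) ∧
    -- 2. the near returns if Oppenheim's conclusion holds
    (∀ L : Matrix (Fin n) (Fin n) ℝ, L.det ≠ 0 → BoundedAway L → HasMatrix L →
      ∃ (ε : ℝ) (K : IntermediateField ℚ ℝ), 0 < ε ∧ FiniteDimensional ℚ K ∧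
        ∀ c ∈ Diag n, ∀ (α : Fin n → ℝ) (δ T R : ℝ),
          (∀ γ ∈ Returns (Matrix.diagonal c * L) α ε δ T R,
            ∀ γ' ∈ Returns (Matrix.diagonal c * L) α ε δ T R, γ * γ' = γ' * γ) ∧
          ∀ γ ∈ Returns (Matrix.diagonal c * L) α ε δ T R, ∀ z : ℂ, Eigenvalue γ z →
            ∃ x ∈ K, z = ((x : ℝ) : ℂ)) := by
  classical
  refine ⟨?_, ?_⟩
  · intro V ν hV hν α ε δ T hα hε hδ K N hK
    obtain ⟨m₁, hm₁⟩ := part_comm (T := T) hn hV hν hα hε hδ
    obtain ⟨m₂, hm₂⟩ := part_field (T := T) hn hV hν hα hε hδ hK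
    obtain ⟨m₃, hm₃⟩ := part_discr (T := T) hn hV hν hα hε hδ N
    have h1 : (m₁ : ℝ) ≤ m₁ + m₂ + m₃ := by
      have h2 : (0 : ℝ) ≤ m₂ := Nat.cast_nonneg _
      have h3 : (0 : ℝ) ≤ m₃ := Nat.cast_nonneg _
      linarith
    have h2 : (m₂ : ℝ) ≤ m₁ + m₂ + m₃ := by
      have h2 : (0 : ℝ) ≤ m₁ := Nat.cast_nonneg _
      have h3 : (0 : ℝ) ≤ m₃ := Nat.cast_nonneg _
      linarith
    have h3 : (m₃ : ℝ) ≤ m₁ + m₂ + m₃ := by
      have h2 : (0 : ℝ) ≤ m₁ := Nat.cast_nonneg _
      have h3 : (0 : ℝ) ≤ m₂ := Nat.cast_nonneg _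
      linarith
    refine ⟨m₁ + m₂ + m₃, fun L hL hF hno b hb => ⟨?_, ?_, ?_⟩⟩
    · obtain ⟨c, hc, γ, hγ, γ', hγ', hne⟩ := hm₁ L hL hF hno b hb
      exact ⟨c, ball_mono h1 hc, γ, returns_mono h1 hγ, γ', returns_mono h1 hγ', hne⟩
    · obtain ⟨c, hc, γ, hγ, h⟩ := hm₂ L hL hF hno b hb
      exact ⟨c, ball_mono h2 hc, γ, returns_mono h2 hγ, h⟩
    · obtain ⟨c, hc, γ, hγ, h⟩ := hm₃ L hL hF hno b hb
      exact ⟨c, ball_mono h3 hc, γ, returns_mono h3 hγ, h⟩
  · intro L hL hb h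
    obtain ⟨ε, K, hε, hK, hu⟩ := uniform hn hL hb h
    refine ⟨ε, K, hε, hK, fun c hc α δ T R => ⟨fun γ hγ γ' hγ' => ?_, fun γ hγ z hz => ?_⟩⟩
    · obtain ⟨d, -, hd⟩ := hu c hc α δ T R γ hγ
      obtain ⟨d', -, hd'⟩ := hu c hc α δ T R γ' hγ'
      have hLu : IsUnit L.det := isUnit_iff_ne_zero.2 hL
      have h1 : ∀ A B : Matrix (Fin n) (Fin n) ℤ, ∀ c c' : Fin n → ℝ,
          L * H715R2.zR A = Matrix.diagonal c * L → L * H715R2.zR B = Matrix.diagonal c' * L →
          L * H715R2.zR (A * B) = Matrix.diagonal (fun i => c i * c' i) * L := by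
        intro A B c c' hA hB
        rw [H715R2.zR_mul, ← Matrix.mul_assoc, hA, Matrix.mul_assoc, hB, ← Matrix.mul_assoc,
          Matrix.diagonal_mul_diagonal]
      have h2 : L * H715R2.zR (γ * γ') = L * H715R2.zR (γ' * γ) := by
        rw [h1 γ γ' d d' hd hd', h1 γ' γ d' d hd' hd]
        simp only [mul_comm]
      have h3 : H715R2.zR (γ * γ') = H715R2.zR (γ' * γ) := by
        have h4 := congrArg (fun X => L⁻¹ * X) h2
        simp only [← Matrix.mul_assoc, Matrix.nonsing_inv_mul _ hLu, Matrix.one_mul] at h4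
        exact h4
      exact Matrix.map_injective Int.cast_injective h3
    · obtain ⟨d, hdK, hd⟩ := hu c hc α δ T R γ hγ
      obtain ⟨i, hi⟩ := MP_edeaa2_an.EigenvalueFields.eigen_diag hL hd hz
      exact ⟨d i, hdK i, hi⟩

end Pool.Agent.Results.MP_77d073_nt.OneBall
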